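import Pool.Agent.helper53.DC.SpecA

set_option autoImplicit false

namespace Pool.Agent.helper53.DC.F43

open CoxeterSystem

theorem A7_step (hA14 : A14_stmt) (hA15 : A15_stmt) {B W G : Type} [Group W] [Group G]
    {M : CoxeterMatrix B} (cs : CoxeterSystem M W) (lab : Wall cs → G) (c : W → G)
    (hc : ∀ x i, c (x * cs.simple i) = c x * lab (wall cs x i)) (p p' : W) (u : Wall cs)
    (hu : (cw cs).Sep u p p') (hv : ∀ v, (cw cs).Sep v p p' → v ≠ u → lab v = 1) :
    c p' = c p * lab u := by
  haveI : Nonempty (Wall cs) := ⟨u⟩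
  obtain ⟨X, w, hG, h0, hn⟩ := hA14 cs p p'
  obtain ⟨-, h2, h3, h4, -⟩ := hA15 cs _ X w hG
  obtain ⟨n, hn'⟩ : ∃ n, n = dd cs p p' := ⟨_, rfl⟩
  rw [← hn'] at hG h2 h3 h4 hn
  obtain ⟨k₀, hk₀, hk⟩ := h4 u (by rw [h0, hn]; exact hu)
  have hlab : ∀ k < n, k ≠ k₀ → lab (w k) = 1 := by
    intro k hk1 hk2
    apply hv
    · have := (h2 k 0 n hk1 (Nat.zero_le _) le_rfl).mpr ⟨Nat.zero_le _, hk1⟩
      rwa [h0, hn] at this
    · intro h
      exact hk2 (h3 k k₀ hk1 hk₀ (h.trans hk))
  have hstep : ∀ k < n, c (X (k + 1)) = c (X k) * lab (w k) := by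
    intro k hk1
    obtain ⟨i, hi⟩ := hG.adj k hk1
    have h5 := hG.step k hk1
    have h6 : wall cs (X k) i = w k := by
      apply Subtype.ext
      rw [wall_val, ← hi, h5, mul_inv_cancel_right]
    rw [hi, hc, h6]
  have hind : ∀ k ≤ n, c (X k) = if k ≤ k₀ then c (X 0) else c (X 0) * lab u := by
    intro k
    induction k with
    | zero => intro _; rw [if_pos (Nat.zero_le _)]
    | succ k ih =>
      intro hk1
      rw [hstep k (by omega), ih (by omega)]
      rcases lt_trichotomy k k₀ with h | h | h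
      · rw [if_pos h.le, if_pos (by omega), hlab k (by omega) (by omega), mul_one]
      · rw [if_pos h.le, if_neg (by omega), h, ← hk]
      · rw [if_neg (by omega), if_neg (by omega), hlab k (by omega) (by omega), mul_one]
  have := hind n le_rfl
  rwa [hn, h0, if_neg (by omega)] at this

theorem A7 (hA2 : A2_stmt) (hA14 : A14_stmt) (hA15 : A15_stmt) : A7_stmt := by
  intro B W _ M cs r r' hcross
  by_contra hres
  classical
  have hne : r ≠ r' := by
    rintro rfl
    obtain ⟨x, h1, h2⟩ := hcross true false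
    have h3 : x ∈ (cw cs).H r ↔ true = true := h1
    have h4 : x ∈ (cw cs).H r ↔ false = true := h2
    rw [h3] at h4
    simp at h4
  let a : DihedralGroup 0 := DihedralGroup.sr 0
  let b : DihedralGroup 0 := DihedralGroup.sr 1
  let lab : Wall cs → DihedralGroup 0 := fun v => if v = r then a else if v = r' then b else 1
  have hlr : lab r = a := if_pos rfl
  have hlr' : lab r' = b := by
    show (if r' = r then a else if r' = r' then b else 1) = b
    rw [if_neg hne.symm, if_pos rfl]
  have hlv : ∀ v, v ≠ r → v ≠ r' → lab v = 1 := by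
    intro v h1 h2
    show (if v = r then a else if v = r' then b else 1) = 1
    rw [if_neg h1, if_neg h2]
  have hsq : ∀ v, lab v * lab v = 1 := by
    intro v
    by_cases h1 : v = r
    · rw [h1, hlr]; exact DihedralGroup.sr_mul_self 0
    · by_cases h2 : v = r'
      · rw [h2, hlr']; exact DihedralGroup.sr_mul_self 1
      · rw [hlv v h1 h2, one_mul]
  have hres' : ¬ Res cs r' r := by
    rintro ⟨x, i, j, α, β, h1, h2, h3⟩
    exact hres ⟨x, i, j, β, α, h1, h3, h2⟩
  have hcomm : ∀ v v', Res cs v v' → lab v * lab v' = lab v' * lab v := by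
    intro v v' h
    by_cases h1 : v = r
    · by_cases h2 : v' = r
      · rw [h1, h2]
      · by_cases h3 : v' = r'
        · rw [h1, h3] at h; exact absurd h hres
        · rw [hlv v' h2 h3, mul_one, one_mul]
    · by_cases h2 : v = r'
      · by_cases h3 : v' = r
        · rw [h2, h3] at h; exact absurd h hres'
        · by_cases h4 : v' = r'
          · rw [h2, h4]
          · rw [hlv v' h3 h4, mul_one, one_mul]
      · rw [hlv v h1 h2, mul_one, one_mul]
  obtain ⟨c, -, hc⟩ := hA2 cs lab hsq hcomm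
  obtain ⟨p₁, h1, h1'⟩ := hcross true true
  obtain ⟨p₂, h2, h2'⟩ := hcross false true
  obtain ⟨p₃, h3, h3'⟩ := hcross false false
  obtain ⟨p₄, h4, h4'⟩ := hcross true false
  have hs : ∀ (u : Wall cs) (x y : W) (e : Bool), x ∈ (cw cs).hs u e → y ∈ (cw cs).hs u e →
      ¬ (cw cs).Sep u x y := by
    intro u x y e hx hy h
    apply h
    have hx' : x ∈ (cw cs).H u ↔ e = true := hx
    have hy' : y ∈ (cw cs).H u ↔ e = true := hy
    rw [hx', hy']
  have hd : ∀ (u : Wall cs) (x y : W) (e : Bool), x ∈ (cw cs).hs u e → y ∈ (cw cs).hs u (!e) →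
      (cw cs).Sep u x y := by
    intro u x y e hx hy h
    have hx' : x ∈ (cw cs).H u ↔ e = true := hx
    have hy' : y ∈ (cw cs).H u ↔ (!e) = true := hy
    rw [hx', hy'] at h
    cases e <;> simp at h
  have e12 : c p₂ = c p₁ * a := by
    rw [← hlr]
    refine A7_step hA14 hA15 cs lab c hc p₁ p₂ r (hd r _ _ true h1 h2) fun v hv hvr => ?_
    exact hlv v hvr (fun h => hs r' _ _ true h1' h2' (h ▸ hv))
  have e23 : c p₃ = c p₂ * b := by
    rw [← hlr']
    refine A7_step hA14 hA15 cs lab c hc p₂ p₃ r' (hd r' _ _ true h2' h3') fun v hv hvr => ?_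
    exact hlv v (fun h => hs r _ _ false h2 h3 (h ▸ hv)) hvr
  have e34 : c p₄ = c p₃ * a := by
    rw [← hlr]
    refine A7_step hA14 hA15 cs lab c hc p₃ p₄ r (hd r _ _ false h3 h4) fun v hv hvr => ?_
    exact hlv v hvr (fun h => hs r' _ _ false h3' h4' (h ▸ hv))
  have e41 : c p₁ = c p₄ * b := by
    rw [← hlr']
    refine A7_step hA14 hA15 cs lab c hc p₄ p₁ r' (hd r' _ _ false h4' h1') fun v hv hvr => ?_
    exact hlv v (fun h => hs r _ _ true h4 h1 (h ▸ hv)) hvr
  rw [e34, e23, e12] at e41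
  have h5 : a * b * (a * b) = 1 := by
    have h6 : c p₁ * (a * b * (a * b)) = c p₁ * 1 := by
      rw [mul_one]
      conv_rhs => rw [e41]
      group
    exact mul_left_cancel h6
  have h7 : a * b = DihedralGroup.r 1 := by
    show DihedralGroup.sr 0 * DihedralGroup.sr 1 = DihedralGroup.r 1
    rw [DihedralGroup.sr_mul_sr, sub_zero]
  rw [h7, DihedralGroup.r_mul_r, DihedralGroup.one_def] at h5
  have h8 := DihedralGroup.r.inj h5
  exact absurd h8 (by decide)

end Pool.Agent.helper53.DC.F43
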