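import Pool.Agent.helper53.DC.SpecH

set_option autoImplicit false

namespace Pool.Agent.helper53.DC.F43

open CoxeterSystem

theorem H6a (hH1 : H1_stmt) (hH2 : H2_stmt) (hA7 : A7_stmt) (hA9 : A9_stmt) (hA14 : A14_stmt)
    (hA15 : A15_stmt) (hA19b : A19b_stmt) : H6a_stmt := by
  intro B W _ _ M cs δ hyp
  obtain ⟨N, hN⟩ : ∃ N, ∀ i j, M i j ≤ N := by
    cases nonempty_fintype B
    classical
    refine ⟨∑ i, ∑ j, M i j, fun i j => ?_⟩
    calc M i j ≤ ∑ j, M i j :=
          Finset.single_le_sum (f := fun j => M i j) (fun _ _ => Nat.zero_le _) (Finset.mem_univ j)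
      _ ≤ ∑ i, ∑ j, M i j :=
          Finset.single_le_sum (f := fun i => ∑ j, M i j) (fun _ _ => Nat.zero_le _)
            (Finset.mem_univ i)
  obtain ⟨c7, hc7⟩ := hA19b cs (8 * δ + 4 + 2 * N)
  refine ⟨c7, fun r x y hx hmin F hF => hc7 x F fun v hv => ?_⟩
  obtain ⟨hsep, hcross⟩ := hF v hv
  -- a chamber of a geodesic from `x` to `y` next to `v`
  haveI : Nonempty (Wall cs) := ⟨v⟩
  obtain ⟨X, w, hG, h0, hn⟩ := hA14 cs x y
  obtain ⟨b1, -, -, b4, -⟩ := hA15 cs _ X w hG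
  obtain ⟨k, hk, hvk⟩ := b4 v (by rw [h0, hn]; exact hsep)
  have hcar : X k ∈ Car cs v := by
    obtain ⟨i, hi⟩ := hG.adj k hk
    refine ⟨i, ?_⟩
    rw [← hi, hG.step k hk, hvk]
  have hd1 : dd cs x (X k) = k := by
    have := b1 0 k (Nat.zero_le _) hk.le
    rw [h0] at this
    omega
  have hd2 : dd cs (X k) y + k = dd cs x y := by
    have := b1 k _ hk.le le_rfl
    rw [hn] at this
    omega
  -- a chamber of the carrier of `r` close to `v`
  obtain ⟨p, hp, hpN⟩ := hA9 cs N hN r v (hA7 cs r v (by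
    intro b b'
    have := hcross b' b
    rwa [Set.inter_comm] at this))
  have h1 := hH2 cs δ hyp r y x p 1 hx hmin ((mem_Car cs r p).mp hp).le
  have h4 := hH1 cs δ hyp v (X k) p x
  have h7 := (mem_Car cs v (X k)).mp hcar
  rw [h7] at h4
  have h6 := dd_tri cs y (X k) p
  have h8 := dd_comm cs (X k) x
  have h9 := dd_comm cs (X k) y
  have h10' := dd_comm cs y x
  have h10 : max 1 (DD cs v p) ≤ 1 + 2 * N := by
    rcases max_cases 1 (DD cs v p) with ⟨h, _⟩ | ⟨h, _⟩ <;> omega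
  omega

end Pool.Agent.helper53.DC.F43
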