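import Pool.Agent.helper53.DC.Defs

/-! PART A (Coxeter base) and PART W (abstract wall systems). Statements; each is proved in its own
module `Pool/Agent/<seat>/DC/<Name>.lean` as `theorem <Name> (h : ..._stmt) ... : <Name>_stmt`. -/

set_option autoImplicit false

namespace Pool.Agent.helper53.DC

/-- `r` and `r'` are walls of a common finite residue of rank at most two. -/
def Res {B W : Type} [Group W] {M : CoxeterMatrix B} (cs : CoxeterSystem M W) (r r' : Wall cs) : Prop :=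
  ∃ (x : W) (i j : B) (a b : ℕ), M i j ≠ 0 ∧
    r.1 = x * (cs.simple i * cs.simple j) ^ a * cs.simple i * x⁻¹ ∧
    r'.1 = x * (cs.simple i * cs.simple j) ^ b * cs.simple i * x⁻¹

/-! ## PART A -/

/-- A1. Gallery lift. PROOF. For each `i` let `π i` be the permutation
`(x, g) ↦ (x * s i, g * lab (x * s i * x⁻¹))` of `W × G`; it is an involution because
`(x s i) s i (x s i)⁻¹ = x s i x⁻¹` and `lab r ^ 2 = 1`. The second hypothesis says `(π j ∘ π i) ^ (M i j) = 1`
(starting at `x` the gallery `x, x s_i, x s_i s_j, ...` crosses the walls `x (s_i s_j)^k s_i x⁻¹`, `k = 0, 1, ...`), so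
`cs.lift` gives an action; put `c x = (π(x⁻¹) (1, 1)).2` (for `x = s_1 ... s_n`, `π(x⁻¹) = π s_n ∘ ... ∘ π s_1`). -/
def A1_stmt : Prop := ∀ {B W G : Type} [Group W] [Group G] {M : CoxeterMatrix B}
  (cs : CoxeterSystem M W) (lab : W → G), (∀ r, cs.IsReflection r → lab r * lab r = 1) →
  (∀ (x : W) (i j : B), ((List.range (2 * M i j)).map (fun k =>
    lab (x * (cs.simple i * cs.simple j) ^ k * cs.simple i * x⁻¹))).prod = 1) →
  ∃ c : W → G, c 1 = 1 ∧ ∀ x i, c (x * cs.simple i) = c x * lab (x * cs.simple i * x⁻¹)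

/-- A2 (uses A1). Commuting version, for functions on walls. PROOF. Extend `lab` by `1`. With `q = s_i s_j`,
`m = M i j` (if `m = 0` nothing to show) `q^(k+m) = q^k`, so the product over `k < 2m` is `P * P` with
`P = ∏_{k<m}`; all factors commute and square to one. -/
def A2_stmt : Prop := ∀ {B W G : Type} [Group W] [Group G] {M : CoxeterMatrix B}
  (cs : CoxeterSystem M W) (lab : Wall cs → G), (∀ r, lab r * lab r = 1) →
  (∀ r r', Res cs r r' → lab r * lab r' = lab r' * lab r) →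
  ∃ c : W → G, c 1 = 1 ∧ ∀ x i, c (x * cs.simple i) = c x * lab (wall cs x i)

/-- A3 (uses A2). Strong exchange: the wall `r` separates `x` and `x * s i` iff it is the wall between them.
PROOF. For fixed `r` apply A2 with `G = Multiplicative (ZMod 2)`, `lab v = a` (non-trivial element) iff `v = r`: get `c_r`.
Uniqueness + translation gives the cocycle rule `c_r (g x) = c_r g * c_{g⁻¹ r g} x`. `c_r r = a`: `r = y s y⁻¹`,
`c_r (y s y⁻¹) = c_r y * a * c_s (y⁻¹)` and `1 = c_r (y y⁻¹) = c_r y * c_s (y⁻¹)`. So `c_r (r x) = a * c_r x`.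
If `c_r x = a` then `r` occurs in the left inversion sequence of every word of `x`, in particular of a reduced one, so
`ℓ (r x) < ℓ x` (Mathlib: `isLeftInversion_of_mem_leftInvSeq`); if `c_r x = 1` then `c_r (r x) = a`, so `ℓ x < ℓ (r x)`.
Hence `x ∈ H r ↔ c_r x = a`. -/
def A3_stmt : Prop := ∀ {B W : Type} [Group W] {M : CoxeterMatrix B} (cs : CoxeterSystem M W)
  (r : Wall cs) (x : W) (i : B), (cw cs).Sep r x (x * cs.simple i) ↔ r = wall cs x i

/-- A4 (uses A3). Separation is equivariant. PROOF. Induction on a word for `x⁻¹ y` with A3. -/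
def A4_stmt : Prop := ∀ {B W : Type} [Group W] {M : CoxeterMatrix B} (cs : CoxeterSystem M W)
  (g : W) (r : Wall cs) (x y : W), (cw cs).Sep (g • r) (g * x) (g * y) ↔ (cw cs).Sep r x y

/-- A4b (uses A4, A6). Translates of half-spaces are half-spaces. -/
def A4b_stmt : Prop := ∀ {B W : Type} [Group W] {M : CoxeterMatrix B} (cs : CoxeterSystem M W)
  (g : W) (r : Wall cs), ∃ e : Bool, ∀ (x : W) (b : Bool),
    g * x ∈ (cw cs).hs (g • r) b ↔ x ∈ (cw cs).hs r (xor b e)

/-- A4c (uses A4b). The relations between walls are equivariant. -/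
def A4c_stmt : Prop := ∀ {B W : Type} [Group W] {M : CoxeterMatrix B} (cs : CoxeterSystem M W)
  (g : W), (∀ r r', (cw cs).Cross (g • r) (g • r') ↔ (cw cs).Cross r r') ∧
    (∀ r r', (cw cs).Dis (g • r) (g • r') ↔ (cw cs).Dis r r') ∧
    (∀ v r r', (cw cs).Btw (g • v) (g • r) (g • r') ↔ (cw cs).Btw v r r') ∧
    (∀ m r r', (cw cs).SepCh m (g • r) (g • r') ↔ (cw cs).SepCh m r r') ∧
    (∀ r x, g * x ∈ Car cs (g • r) ↔ x ∈ Car cs r)

/-- A5 (uses A3). The number of walls separating `x` and `y` is `d(x,y)`. PROOF. The walls crossed an odd number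
of times by a reduced word of `x⁻¹ y` starting at `x`; they are pairwise different by `IsReduced.nodup_leftInvSeq`. -/
def A5_stmt : Prop := ∀ {B W : Type} [Group W] {M : CoxeterMatrix B} (cs : CoxeterSystem M W)
  (x y : W), {r | (cw cs).Sep r x y}.Finite ∧ {r | (cw cs).Sep r x y}.ncard = dd cs x y

/-- A6 (uses A3). PROOF. `r ∈ H r`, `1 ∉ H r`. If `H r = H r'` or `H r = (H r')ᶜ` write `r = y s y⁻¹`; `y, y s` are
separated by `r`, so by `r'`, so `r = r'` by A3. -/
def A6_stmt : Prop := ∀ {B W : Type} [Group W] {M : CoxeterMatrix B} (cs : CoxeterSystem M W),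
  (cw cs).Good

/-- A7 (uses A2, A3, A14, A15). Crossing walls belong to a common finite residue. PROOF. Suppose not. `G = Z/2 * Z/2`
(e.g. `DihedralGroup 0` with two reflections `a = sr 0`, `b = sr 1`, `(ab)^2 ≠ 1`), `lab r = a`, `lab r' = b`, `lab = 1`
otherwise: A2 applies. Choose points `p₁ ∈ (+,+)`, `p₂ ∈ (-,+)`, `p₃ ∈ (-,-)`, `p₄ ∈ (+,-)` of the four quadrants of
`(r, r')`. Along a geodesic from `p₁` to `p₂` the wall `r` is crossed exactly once and `r'` never, so `c p₂ = c p₁ * a`; similarly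
`c p₃ = c p₂ * b`, `c p₄ = c p₃ * a`, `c p₁ = c p₄ * b`: `a b a b = 1`, contradiction. -/
def A7_stmt : Prop := ∀ {B W : Type} [Group W] {M : CoxeterMatrix B} (cs : CoxeterSystem M W)
  (r r' : Wall cs), (cw cs).Cross r r' → Res cs r r'

/-- A8 (uses A3, A6). Conversely. PROOF. Let `m = M i j`; `r ≠ r'` so `i ≠ j`, `m ≥ 2` and `q^a s_i ≠ q^b s_i`.
The closed gallery `x, x s_i, x s_i s_j, ...` of length `2m` crosses the walls `v_k = x q^k s_i x⁻¹`, `k < 2m`, `v_{k+m} = v_k`;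
reduce `a, b` mod `m`. `v_0, ..., v_{m-1}` are pairwise different (otherwise `q^k` = 1 in `W` with
`0 < k < m`; use only that `r ≠ r'`: it suffices to follow sides: the gallery crosses `r` exactly at the indices `k` with `v_k = r`).
TRICK avoiding the order of `q`: let `k₁ < k₂` be the crossing indices; the four quadrants are met because
crossings of `r` and `r'` alternate: `v_k = r ↔ q^k = q^a`, `v_k = r' ↔ q^k = q^b`; if `n` is the order of `q` both index sets are
arithmetic progressions with difference `n` and different residues. So among the chambers after crossing only `r`, `r` and `r'`, ...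
all four sign patterns occur (the total number of crossings is even). -/
def A8_stmt : Prop := ∀ {B W : Type} [Group W] {M : CoxeterMatrix B} (cs : CoxeterSystem M W)
  (r r' : Wall cs), Res cs r r' → r ≠ r' → (cw cs).Cross r r'

/-- A9. (No walls needed.) A chamber adjacent to `r` close to `v`. PROOF. `r = x q^a s_i x⁻¹`. Some chamber `p` of
`x ⟨s_i, s_j⟩` has `p⁻¹ r p ∈ {s_i, s_j}` (`a = 2n`: `p = x q^n`; `a = 2n+1`: `p = x q^n s_i`, as `q^(2n+1) s_i = q^n s_i s_j s_i q^(-n)`), and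
`p⁻¹ v p` is an element of the finite dihedral group `⟨s_i, s_j⟩`, i.e. `q^k` or `q^k s_i` with `0 ≤ k < M i j`, of length
`≤ 2 (M i j)`. -/
def A9_stmt : Prop := ∀ {B W : Type} [Group W] {M : CoxeterMatrix B} (cs : CoxeterSystem M W)
  (N : ℕ), (∀ i j, M i j ≤ N) → ∀ r v : Wall cs, Res cs r v → ∃ p ∈ Car cs r, DD cs v p ≤ 2 * N

/-- A10. PROOF. `r r' = x q^a s_i q^b s_i x⁻¹ = x q^(a-b) x⁻¹`. -/
def A10_stmt : Prop := ∀ {B W : Type} [Group W] {M : CoxeterMatrix B} (cs : CoxeterSystem M W)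
  (r r' : Wall cs), Res cs r r' → ∃ i j, M i j ≠ 0 ∧ (r.1 * r'.1) ^ (M i j) = 1

/-- A11 (uses A3, A14, A15). `D_r(x) = 2 d(x, Car r) + 1`. PROOF. Take a geodesic gallery `x_0 = x, ..., x_n = r x`. `r` separates
`x` and `r x`, so `r` is crossed at exactly one index `j`: `x_{j+1} = r x_j`. Then `d(x, x_j) = j` and
`d(r x, x_{j+1}) = d(r x, r x_j) = j`, `= n - (j+1)`. So `n = 2j+1`; `z = x_j`. -/
def A11_stmt : Prop := ∀ {B W : Type} [Group W] {M : CoxeterMatrix B} (cs : CoxeterSystem M W)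
  (r : Wall cs) (x : W), ∃ z ∈ Car cs r, 2 * dd cs x z + 1 = DD cs r x ∧ ¬ (cw cs).Sep r x z

/-- A12 (uses A3). PROOF. `x, x'` are on the same side of `r` and on different sides of `v`; `r x = x s` and `r x' = x' s'` are on the
other side of `r`, and on the same side of `v` as `x`, `x'` respectively (only `r` separates `x` from `r x`, and `v ≠ r`). -/
def A12_stmt : Prop := ∀ {B W : Type} [Group W] {M : CoxeterMatrix B} (cs : CoxeterSystem M W)
  (r v : Wall cs) (x x' : W), x ∈ Car cs r → x' ∈ Car cs r → ¬ (cw cs).Sep r x x' →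
    (cw cs).Sep v x x' → (cw cs).Cross v r

/-- A13 (uses A3, A14, A15). PROOF. Suppose `Car r ∩ hs r b ⊆ hs v b'` . Choose `y ∈ hs r b ∩ hs v (!b')`, `z ∈ hs r (!b) ∩ hs v (!b')` (the
walls cross). A geodesic from `y` to `z` never crosses `v`, and it crosses `r` from a chamber `u ∈ Car r ∩ hs r b`: `u ∈ hs v (!b')`, contradiction. -/
def A13_stmt : Prop := ∀ {B W : Type} [Group W] {M : CoxeterMatrix B} (cs : CoxeterSystem M W)
  (r v : Wall cs) (b : Bool), (cw cs).Cross v r → ∃ x ∈ Car cs r, ∃ x' ∈ Car cs r,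
    x ∈ (cw cs).hs r b ∧ x' ∈ (cw cs).hs r b ∧ (cw cs).Sep v x x'

/-- A14. Geodesic galleries exist (from a reduced word of `x⁻¹ y`; `w k` = wall of the `k`-th step). (CHANGED 03:12: there must be
a wall; users: `haveI : Nonempty (Wall cs) := ⟨r⟩`.) -/
def A14_stmt : Prop := ∀ {B W : Type} [Group W] {M : CoxeterMatrix B} (cs : CoxeterSystem M W)
  [Nonempty (Wall cs)] (x y : W), ∃ (X : ℕ → W) (w : ℕ → Wall cs), Gal cs (dd cs x y) X w ∧ X 0 = x ∧ X (dd cs x y) = y

/-- A15 (uses A3, A5). Facts on geodesic galleries. -/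
def A15_stmt : Prop := ∀ {B W : Type} [Group W] {M : CoxeterMatrix B} (cs : CoxeterSystem M W)
  (n : ℕ) (x : ℕ → W) (w : ℕ → Wall cs), Gal cs n x w →
    (∀ i j, i ≤ j → j ≤ n → dd cs (x i) (x j) = j - i) ∧
    (∀ k i j, k < n → i ≤ j → j ≤ n → ((cw cs).Sep (w k) (x i) (x j) ↔ i ≤ k ∧ k < j)) ∧
    (∀ i j, i < n → j < n → w i = w j → i = j) ∧
    (∀ v, (cw cs).Sep v (x 0) (x n) → ∃ k < n, v = w k) ∧
    (∀ i j, i ≤ j → j ≤ n → Gal cs (j - i) (fun k => x (i + k)) (fun k => w (i + k)))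

/-- A16 (uses A5). `z` is on a geodesic from `x` to `y` iff no wall separates it from both. PROOF. Count walls
(`#(A ∆ B) = #A + #B - 2 #(A ∩ B)`). -/
def A16_stmt : Prop := ∀ {B W : Type} [Group W] {M : CoxeterMatrix B} (cs : CoxeterSystem M W)
  (x y z : W), dd cs x z + dd cs z y = dd cs x y ↔
    ∀ v, ¬ ((cw cs).Sep v x z ∧ (cw cs).Sep v z y)

/-- A18 (uses A4b, A6). Disjoint walls generate a nested sequence of half-spaces. PROOF. Some quadrant `hs r (!b) ∩ hs r' b'` is empty,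
so `hs r' b' ⊆ hs r b`, strictly since `r ≠ r'`. `r'` maps `(hs r b)ᶜ = r (hs r b)` into `r' (hs r' b')ᶜ = hs r' b' ⊆ hs r b`. -/
def A18_stmt : Prop := ∀ {B W : Type} [Group W] {M : CoxeterMatrix B} (cs : CoxeterSystem M W)
  (r r' : Wall cs), (cw cs).Dis r r' → ∃ b, (fun x => r'.1 * (r.1 * x)) '' (cw cs).hs r b ⊂ (cw cs).hs r b

/-- A17 (uses A18). Disjoint walls: `r r'` has infinite order. -/
def A17_stmt : Prop := ∀ {B W : Type} [Group W] {M : CoxeterMatrix B} (cs : CoxeterSystem M W)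
  (r r' : Wall cs), (cw cs).Dis r r' → ∀ n, 0 < n → (r.1 * r'.1) ^ n ≠ 1

/-- A19. Balls are finite. -/
def A19_stmt : Prop := ∀ {B W : Type} [Group W] [Finite B] {M : CoxeterMatrix B} (cs : CoxeterSystem M W)
  (x : W) (n : ℕ), {y | dd cs x y ≤ n}.Finite

/-- A19b (uses A19). Uniformly finitely many walls near a chamber. PROOF. `r ↦ x⁻¹ r x` maps them injectively into the ball of radius `c`
around `1`. -/
def A19b_stmt : Prop := ∀ {B W : Type} [Group W] [Finite B] {M : CoxeterMatrix B} (cs : CoxeterSystem M W)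
  (c : ℕ), ∃ N, ∀ (x : W) (F : Finset (Wall cs)), (∀ r ∈ F, DD cs r x ≤ c) → F.card ≤ N

/-- A20. Finitely many labels. PROOF. Every wall is `g • (simple reflection)`, `g` in a finite set of right coset representatives modulo `H`
times ... (write `g = h t`). -/
def A20_stmt : Prop := ∀ {B W : Type} [Group W] [Finite B] {M : CoxeterMatrix B} (cs : CoxeterSystem M W)
  (H : Subgroup W), H.FiniteIndex → Finite (Lab cs H)

/-- A21. Finitely many orbits of pairs in a common finite residue. PROOF. `(r, r') = x • (q^a s_i, q^b s_i)`, `a, b < M i j`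
(`q^(M i j) = 1`). -/
def A21_stmt : Prop := ∀ {B W : Type} [Group W] [Finite B] {M : CoxeterMatrix B} (cs : CoxeterSystem M W),
  ∃ P : Set (Wall cs × Wall cs), P.Finite ∧ ∀ r r', Res cs r r' → ∃ g : W, ∃ p ∈ P, r = g • p.1 ∧ r' = g • p.2

/-- A22 (uses A3, A13, W1). The position of a wall is that of its carrier. PROOF. If `hs u b' ⊆ hs v b` then every `x ∈ Car u` or its neighbour `u x`
is in `hs u b'`, and `v ≠ u` does not separate `x` and `u x`. Conversely if `Car u ⊆ hs v b` then `u, v` do not cross (A13), so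
`On u v b''`, so `Car u ⊆ hs v b''` and `b'' = b` as `Car u` is not empty. -/
def A22_stmt : Prop := ∀ {B W : Type} [Group W] {M : CoxeterMatrix B} (cs : CoxeterSystem M W)
  (u v : Wall cs) (b : Bool), u ≠ v → ((cw cs).On u v b ↔ Car cs u ⊆ (cw cs).hs v b)

/-- A23 (uses A14, A15). Half-spaces are convex for geodesics: if `z` is on a geodesic from `x` to `y` and `x, y ∈ hs v b` then `z ∈ hs v b`; and
a half-space containing `z` contains `x` or `y`. (A16 gives it as well.) -/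
def A23_stmt : Prop := ∀ {B W : Type} [Group W] {M : CoxeterMatrix B} (cs : CoxeterSystem M W)
  (x y z : W), dd cs x z + dd cs z y = dd cs x y → ∀ (v : Wall cs) (b : Bool),
    z ∈ (cw cs).hs v b → x ∈ (cw cs).hs v b ∨ y ∈ (cw cs).hs v b

/-! ## PART W: abstract wall systems -/

/-- W1. Basic facts. -/
def W1_stmt : Prop := ∀ {X Wl : Type} (S : WS X Wl), S.Good →
  (∀ u v b, (S.hs u b).Nonempty ∧ S.hs u (!b) = (S.hs u b)ᶜ ∧ (S.hs u b = S.hs v b → u = v) ∧
    S.hs u b ≠ S.hs v (!b)) ∧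
  (∀ u v, S.Cross u v → S.Cross v u) ∧ (∀ u, ¬ S.Cross u u) ∧ (∀ u v, S.Dis u v → S.Dis v u) ∧
  (∀ u v, u = v ∨ S.Cross u v ∨ S.Dis u v) ∧
  (∀ u v, S.Dis u v → ∃ b, S.On u v b) ∧
  (∀ u v b, S.On u v b → S.Dis u v) ∧
  (∀ u v b b', S.On u v b → S.On u v b' → b = b') ∧
  (∀ u v b, S.On u v b → ∃ b', S.On v u b' ∧ S.hs u (!b') ⊂ S.hs v b ∧ S.hs v (!b) ⊂ S.hs u b')

/-- W2 (uses W1). A wall crossing `u` and `u'` crosses every wall between. -/
def W2_stmt : Prop := ∀ {X Wl : Type} (S : WS X Wl), S.Good → ∀ v u u' c,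
  S.Btw v u u' → S.Cross c u → S.Cross c u' → S.Cross c v

/-- W3 (uses W1). Order facts. -/
def W3_stmt : Prop := ∀ {X Wl : Type} (S : WS X Wl), S.Good →
  (∀ v u u', S.Btw v u u' → S.Btw v u' u) ∧
  (∀ v u u', S.Btw v u u' → S.Dis u u' ∧ S.Dis u v ∧ S.Dis u' v) ∧
  (∀ v u v' b, S.Btw v u v' → S.On v v' b → S.On u v' b) ∧
  (∀ v v' u u', S.Btw v u v' → S.Btw v' u u' → S.Btw v u u' ∧ S.Btw v' v u') ∧
  (∀ v v' u u', S.Btw v u u' → S.Btw v' v u' → S.Btw v' u u' ∧ S.Btw v u v') ∧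
  (∀ c u v b, S.Cross c u → S.On u v b → c ≠ v → ¬ S.Cross c v → S.On c v b) ∧
  (∀ v v' u u', S.Btw v u u' → S.Btw v' u u' → v ≠ v' → ¬ S.Cross v v' →
    (S.Btw v u v' ∧ S.Btw v' v u') ∨ (S.Btw v' u v ∧ S.Btw v v' u')) ∧
  (∀ m u u', S.SepCh m u u' → S.SepCh m u' u) ∧
  (∀ m m' u u', m' ≤ m → S.SepCh m u u' → S.SepCh m' u u') ∧
  (∀ m u u' v, S.IsCh m u u' v → ∀ i j, i < m → j < m → i ≠ j → S.Dis (v i) (v j)) ∧
  (∀ u u', S.SepCh 0 u u')

/-- W4 (uses W1, W3). Mirsky. PROOF. By W3 non-crossing walls of `F` are comparable for `v < v' :↔ Btw v u v'` (a strict partial order on walls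
separating `u, u'`). Induction on `k`: remove the set of minimal elements (pairwise crossing, so at most `D`); more than
`(k-1) D` remain; put a minimal element below the first element of the chain obtained by induction. -/
def W4_stmt : Prop := ∀ {X Wl : Type} (S : WS X Wl), S.Good → ∀ (u u' : Wl) (D k : ℕ) (F : Finset Wl),
  (∀ v ∈ F, S.Btw v u u') →
  (∀ E ⊆ F, (∀ v ∈ E, ∀ v' ∈ E, v ≠ v' → S.Cross v v') → E.card ≤ D) →
  k * D < F.card → ∃ v : ℕ → Wl, S.IsCh (k + 1) u u' v ∧ ∀ i < k + 1, v i ∈ F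

/-- W5 (uses W1). Thickenings. PROOF of convexity: if `x ∉ Thick C k` is witnessed by `hs (v 0)(b 0) ⊃ ... ⊃ hs (v k)(b k) ∋ x` then
`Thick C k ⊆ hs (v k) (!b k)`: a point of `hs (v k) (b k)` is in all of them. -/
def W5_stmt : Prop := ∀ {X Wl : Type} (S : WS X Wl), S.Good → ∀ (C : Set X) (k : ℕ),
  S.Conv (S.Thick C k) ∧ C ⊆ S.Thick C k ∧ S.Thick C k ⊆ S.Thick C (k + 1) ∧
  (∀ C', C ⊆ C' → S.Thick C k ⊆ S.Thick C' k)

/-- W6. Hulls. -/
def W6_stmt : Prop := ∀ {X Wl : Type} (S : WS X Wl) (E : Set X),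
  S.Conv (S.hull E) ∧ E ⊆ S.hull E ∧ (∀ C, S.Conv C → E ⊆ C → S.hull E ⊆ C) ∧
  (∀ w, S.CrS w (S.hull E) ↔ S.CrS w E) ∧ (∀ E', E ⊆ E' → S.hull E ⊆ S.hull E')

/-- W7 (uses W1). Counting: if walls `F` separate `x` from `C` (that is from every point of `C`) then a big `F` gives a long nested chain. (Mirsky again.) -/
def W7_stmt : Prop := ∀ {X Wl : Type} (S : WS X Wl), S.Good → ∀ (C : Set X) (x : X) (D k : ℕ) (F : Finset Wl),
  C.Nonempty → (∀ v ∈ F, ∀ z ∈ C, S.Sep v x z) →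
  (∀ E ⊆ F, (∀ v ∈ E, ∀ v' ∈ E, v ≠ v' → S.Cross v v') → E.card ≤ D) →
  k * D < F.card → ∃ (v : ℕ → Wl) (b : ℕ → Bool), (∀ i ≤ k, x ∈ S.hs (v i) (b i)) ∧
    (∀ i ≤ k, Disjoint (S.hs (v i) (b i)) C) ∧
    (∀ i < k, S.hs (v (i + 1)) (b (i + 1)) ⊂ S.hs (v i) (b i))

end Pool.Agent.helper53.DC
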