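import Pool.Agent.helper53.DC.SpecA

/-! PART R: the Tits representation and residual finiteness. -/

set_option autoImplicit false

namespace Pool.Agent.helper53.DC

/-- `c_ij = 2 cos (π / m_ij)` (`= 2` if `m_ij = 0`, i.e. infinite, and `= -2` for `i = j`). -/
noncomputable def cc {B : Type} (M : CoxeterMatrix B) (i j : B) : ℝ := 2 * Real.cos (Real.pi / (M i j : ℝ))

/-- The matrix of `e_j ↦ e_j + c_ij e_i`. -/
def sgA {A B : Type} [CommRing A] [DecidableEq B] (c : B → B → A) (i : B) : Matrix B B A :=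
  Matrix.of fun k j => (if k = j then 1 else 0) + (if k = i then c i j else 0)

/-- R1. The relations of the geometric representation. PROOF. `i = j`: `c_ii = -2`, `σ_i^2 = 1`. `m_ij = 0` trivial. Otherwise
`θ = π / m`; use `Module.reflection_mul_reflection_pow_apply` (Mathlib, Chebyshev `S`) with `t = 4 cos^2 θ - 2 = 2 cos 2θ`, or directly: on
`ℝ e_i + ℝ e_j` the map `σ_i σ_j` has trace `2 cos 2θ`, determinant 1 and is diagonalizable over `ℂ` with eigenvalues `exp(± 2 i θ)`
(`0 < 2θ < 2π`, different unless `m = 2`, where it is `-1`), and every `v` is the sum of a vector of this plane and a vector fixed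
by both (the 2x2 Gram matrix is invertible as `cos θ ≠ ± 1`). -/
def R1_stmt : Prop := ∀ {B : Type} [Fintype B] [DecidableEq B] (M : CoxeterMatrix B),
  ∀ i j, (sgA (cc M) i * sgA (cc M) j) ^ (M i j) = 1

/-- R2. Dihedral positivity. PROOF. Let `u 0 = 0, u 1 = 1, u (n+2) = 2 cos θ * u (n+1) - u n` (`θ = π / m_ij`, `θ = 0` if infinite), so
`sin θ * u n = sin (n θ)` and `u n = n` for `θ = 0`; `0 ≤ u n` for `n ≤ m_ij` (all `n` if infinite).
By induction on `n`, writing the alternating word as (first letter) + rest: the vector is `u (n+1) e_i + u n e_j` for even `n` and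
`u n e_i + u (n+1) e_j` for odd `n` (`alternatingWord i j n` ends with `j`; its first letter is `j` for odd `n`, `i` for even `n > 0`). -/
def R2_stmt : Prop := ∀ {B W : Type} [Group W] [Fintype B] [DecidableEq B] {M : CoxeterMatrix B}
  (cs : CoxeterSystem M W) (φ : W →* Matrix B B ℝ), (∀ i, φ (cs.simple i) = sgA (cc M) i) →
  ∀ (i j : B) (n : ℕ), i ≠ j → (n < M i j ∨ M i j = 0) →
    ∃ a b : ℝ, 0 ≤ a ∧ 0 ≤ b ∧ (φ (cs.wordProd (CoxeterSystem.alternatingWord i j n))).mulVec (Pi.single i 1) =
      a • Pi.single i 1 + b • Pi.single j 1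

/-- R3. Splitting off a dihedral tail. PROOF. Among all `(v, n, word alternating in i, j)` (either end letter) with `w = v * π(word)` and
`ℓ w = ℓ v + n` take `ℓ v` minimal. If `ℓ (v s_i) < ℓ v` then `w = (v s_i) (s_i π(word))`: if the word starts with `i` it cancels and
`ℓ w ≤ ℓ v - 1 + n - 1`, otherwise we get a longer alternating word and smaller `v`: contradiction; same for `j`. The last letter is `j`
(if `n > 0`) because `ℓ (w s_i) > ℓ w`; `n > 0` because `ℓ (w s_j) < ℓ w`. If `m = M i j ≠ 0`: `n ≤ m` (`not_isReduced_alternatingWord`, the word is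
reduced) and `n ≠ m` because the two alternating words of length `m` have the same product and the other one ends with `i`. -/
def R3_stmt : Prop := ∀ {B W : Type} [Group W] {M : CoxeterMatrix B}
  (cs : CoxeterSystem M W) (w : W) (i j : B), i ≠ j → cs.length w < cs.length (w * cs.simple i) →
  cs.length (w * cs.simple j) < cs.length w →
  ∃ (v : W) (n : ℕ), 0 < n ∧ w = v * cs.wordProd (CoxeterSystem.alternatingWord i j n) ∧
    cs.length w = cs.length v + n ∧ cs.length v < cs.length (v * cs.simple i) ∧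
    cs.length v < cs.length (v * cs.simple j) ∧ (n < M i j ∨ M i j = 0)

/-- R4 (uses R2, R3). Positivity of roots. PROOF. Strong induction on `ℓ w`. `w = 1` clear. Otherwise choose `j` with `ℓ (w s_j) < ℓ w`, `j ≠ i`, R3;
`ℓ v < ℓ w`, so `φ v e_i ≥ 0` and `φ v e_j ≥ 0`, and `φ w e_i = φ v (a e_i + b e_j)`. -/
def R4_stmt : Prop := ∀ {B W : Type} [Group W] [Fintype B] [DecidableEq B] {M : CoxeterMatrix B}
  (cs : CoxeterSystem M W) (φ : W →* Matrix B B ℝ), (∀ i, φ (cs.simple i) = sgA (cc M) i) →
  ∀ (w : W) (i : B), cs.length w < cs.length (w * cs.simple i) →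
    ∀ k, 0 ≤ (φ w).mulVec (Pi.single i 1) k

/-- R5 (uses R4). Faithfulness. PROOF. If `w ≠ 1` choose `i` with `ℓ (w s_i) < ℓ w` and put `v = w s_i`: `ℓ v < ℓ (v s_i)`, `φ v e_i ≥ 0`, and
`φ w e_i = φ v (φ s_i e_i) = - φ v e_i ≤ 0`, so it is not `e_i`. -/
def R5_stmt : Prop := ∀ {B W : Type} [Group W] [Fintype B] [DecidableEq B] {M : CoxeterMatrix B}
  (cs : CoxeterSystem M W) (φ : W →* Matrix B B ℝ), (∀ i, φ (cs.simple i) = sgA (cc M) i) →
  ∀ w, φ w = 1 → w = 1

/-- R6. The coefficients lie in a subring that is a finitely generated abelian group. PROOF. `2 cos (q π)` is integral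
(`Real.isIntegral_two_mul_cos_rat_mul_pi`); `Algebra.adjoin ℤ` of a finite set of integral elements is module-finite. -/
def R6_stmt : Prop := ∀ {B : Type} [Finite B] (M : CoxeterMatrix B),
  ∃ A : Subring ℝ, Module.Finite ℤ A ∧ ∀ i j, cc M i j ∈ A

/-- R7. Separating an element of a finitely generated torsion free ring from `0` in a finite ring. PROOF. `A` is free over `ℤ`; some coordinate
`z ≠ 0` of `a`; `N = |z| + 1`; `R = A ⧸ (N)` is finite and `a` is not in `N A`. -/
def R7_stmt : Prop := ∀ (A : Subring ℝ), Module.Finite ℤ A → ∀ a : A, a ≠ 0 →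
  ∃ (R : Type) (_ : CommRing R) (_ : Finite R) (f : A →+* R), f a ≠ 0

/-- R8 (uses R1, R5, R6, R7). Coxeter groups of finite rank are residually finite. PROOF. `cs.lift` of `sgA c` over `A` (the relations hold in `A` since they
hold in `ℝ`, `Matrix.map` along the inclusion is injective); for `g ≠ 1` some entry of `φ g - 1` is a non-zero `a ∈ A`; take the kernel of
`W →* Matrix B B A →* Matrix B B R` (finite monoid, the image lies in the finite group of units). -/
def R8_stmt : Prop := ∀ {B W : Type} [Group W] [Finite B] {M : CoxeterMatrix B}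
  (_ : CoxeterSystem M W) (g : W), g ≠ 1 → ∃ H : Subgroup W, H.Normal ∧ H.FiniteIndex ∧ g ∉ H

/-- R9 (uses R8). Avoiding finitely many elements. PROOF. Finite intersections. -/
def R9_stmt : Prop := ∀ {B W : Type} [Group W] [Finite B] {M : CoxeterMatrix B}
  (_ : CoxeterSystem M W) (F : Finset W), (∀ g ∈ F, g ≠ 1) →
  ∃ H : Subgroup W, H.Normal ∧ H.FiniteIndex ∧ ∀ g ∈ F, g ∉ H

end Pool.Agent.helper53.DC
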