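import Pool.Agent.helper53.DC.SpecI
import Pool.Agent.helper53.DC.SpecR

/-! PART H: consequences of hyperbolicity. Notation in the comments: `G2(x,y;z) = d(x,z) + d(z,y) - d(x,y)`. The four-point condition
says `G2(u,w;p) ≥ min (G2(u,v;p)) (G2(v,w;p)) - 2δ`. -/

set_option autoImplicit false

namespace Pool.Agent.helper53.DC

/-- H1. PROOF. Four points `z, r z, x, p`: `d(z,rz) + d(x,p) ≤ max (d(z,x) + d(rz,p)) (d(z,p) + d(rz,x)) + 2δ`, `d(rz,p) = d(z,rp) ≤ d(z,p) + D_r(p)` etc. -/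
def H1_stmt : Prop := ∀ {B W : Type} [Group W] {M : CoxeterMatrix B} (cs : CoxeterSystem M W) (δ : ℕ),
  Hyp cs δ → ∀ (r : Wall cs) (x p z : W),
    DD cs r z + dd cs x p ≤ dd cs x z + dd cs z p + max (DD cs r x) (DD cs r p) + 2 * δ

/-- H2 (uses H1, A11). PROOF. `G = G2(o,p;z) ≤ 2 d(z,p)`, `t = G / 2`, `q` on a geodesic from `z` to `p` with `d(z,q) = t` (`exists_geo`). Four points:
`d(o,q) + d(z,p) ≤ max (d(o,z) + d(q,p)) (d(o,p) + d(z,q)) + 2δ` gives `d(o,q) ≤ d(o,z) - t + 2δ`. H1: `D_r(q) ≤ max 1 c + 2δ`; A11 gives `z' ∈ Car r`,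
`2 d(q,z') + 1 = D_r(q)`. `d(o,z) ≤ d(o,z') ≤ d(o,q) + d(q,z')`, so `t ≤ 3δ + c/2 (+ rounding)`. -/
def H2_stmt : Prop := ∀ {B W : Type} [Group W] {M : CoxeterMatrix B} (cs : CoxeterSystem M W) (δ : ℕ),
  Hyp cs δ → ∀ (r : Wall cs) (o z p : W) (c : ℕ), z ∈ Car cs r → (∀ z' ∈ Car cs r, dd cs o z ≤ dd cs o z') →
    DD cs r p ≤ c → dd cs o z + dd cs z p ≤ dd cs o p + (6 * δ + c + 2)

/-- H3a (uses A18, A11, A5, A4b, A6). PROOF. `h = r' r`, `α = hs r b` with `h α ⊂ α` (A18). `p' ∈ Car r`, `p' ∉ α`, `2 d(p,p') ≤ D_r(p) + 1`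
(A11 gives `z ∈ Car r`; take `z` or `r z`), `q' ∈ Car r ∩ α` similarly. The walls `h^k • r`, `0 ≤ k ≤ n`, separate `p'` from `h^n q'`
(`h^n q' ∈ h^n α ⊆ h^k α`) and are pairwise different (strictly nested half-spaces). So `n + 1 ≤ d(p', h^n q')`. -/
def H3a_stmt : Prop := ∀ {B W : Type} [Group W] {M : CoxeterMatrix B} (cs : CoxeterSystem M W)
  (r r' : Wall cs), (cw cs).Dis r r' → ∀ (n c : ℕ) (p q : W), DD cs r p ≤ c → DD cs r q ≤ c →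
    n ≤ dd cs p ((r'.1 * r.1) ^ n * q) + c

/-- H3b. Fellow travelling. PROOF. `0 = G2(x,y;p) ≥ min (G2(x,x';p)) (G2(x',y;p)) - 2δ`, `G2(x,x';p) ≥ 2 d(x,p) - 2 s > 2δ`, so `G2(x',y;p) ≤ 2δ`; in the same way
`G2(x',y';p) ≤ 4δ`. `q'` on a geodesic from `x'` to `y'` at distance `(d(x',y') + d(x',p) - d(y',p)) / 2` from `x'`; four points `p, q', x', y'`. -/
def H3b_stmt : Prop := ∀ {B W : Type} [Group W] {M : CoxeterMatrix B} (cs : CoxeterSystem M W) (δ : ℕ),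
  Hyp cs δ → ∀ (x y x' y' p : W) (s : ℕ), dd cs x x' ≤ s → dd cs y y' ≤ s → dd cs x p + dd cs p y = dd cs x y →
    s + 2 * δ < dd cs x p → s + 2 * δ < dd cs p y →
    ∃ q', dd cs x' q' + dd cs q' y' = dd cs x' y' ∧ dd cs p q' ≤ 4 * δ + 1

/-- H3 (uses H1, H3a, H3b). Two disjoint walls are close only in a bounded region. PROOF. `c' = c + 2δ`, `n = 4δ + c' + 2`, `h = r' r`, `s = 2 c n`:
`d(x, h^n x) ≤ n d(x, h x) = n d(r' x, r x) ≤ s`. If `d(x,y) > 2 (s + 2δ) + 2` take the midpoint `p`; H3b (for `x, y, h^n x, h^n y`) gives `q' = h^n q`, `q` on a geodesic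
from `x` to `y`; H1: `D_r(p), D_r(q) ≤ c'`; H3a: `n ≤ 4δ + 1 + c'`. -/
def H3_stmt : Prop := ∀ {B W : Type} [Group W] {M : CoxeterMatrix B} (cs : CoxeterSystem M W) (δ : ℕ),
  Hyp cs δ → ∀ c : ℕ, ∃ L0 : ℕ, ∀ r r' : Wall cs, (cw cs).Dis r r' → ∀ x y : W, DD cs r x ≤ c → DD cs r' x ≤ c →
    DD cs r y ≤ c → DD cs r' y ≤ c → dd cs x y ≤ L0

/-- H4a (uses H1, H2, H3). Geodesics between disjoint walls pass near a fixed point. PROOF. `x ∈ Car r, y ∈ Car r'` with `l = d(x,y)` minimal, `κ = 6δ + 3`. H2: `G2(y,p;x) ≤ κ`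
for `p ∈ Car r`, `G2(x,p';y) ≤ κ` for `p' ∈ Car r'`, so `G2(y,p';x) ≥ 2l - κ`. If `2l - κ > κ + 2δ`: four points at `x` give `G2(p,p';x) ≤ κ + 2δ`. Otherwise
`l ≤ κ + δ`, `D_{r'}(x) ≤ 1 + 2l`; `t = G2(p,p';x) / 2`, `q, q'` on geodesics from `x` to `p`, `p'` at distance `t` from `x`: `d(q,q') ≤ 4δ`, `D_r(q) ≤ 1 + 2δ`,
`D_{r'}(q) ≤ D_{r'}(q') + 8δ ≤ 1 + 2l + 10δ` (H1), so `t = d(x,q) ≤ L0` by H3. -/
def H4a_stmt : Prop := ∀ {B W : Type} [Group W] {M : CoxeterMatrix B} (cs : CoxeterSystem M W) (δ : ℕ),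
  Hyp cs δ → ∃ C : ℕ, ∀ r r' : Wall cs, (cw cs).Dis r r' → ∃ x : W, ∀ p ∈ Car cs r, ∀ p' ∈ Car cs r',
    dd cs p x + dd cs x p' ≤ dd cs p p' + C

/-- H4 (uses H1, H4a, A7, A9, A19b). At most `g0` walls cross two disjoint walls. PROOF. `u` crosses both: `p ∈ Car r`, `p' ∈ Car r'` with
`D_u(p), D_u(p') ≤ 2N` (A7, A9); H1: `D_u(x) ≤ C + 2N + 2δ`; A19b. -/
def H4_stmt : Prop := ∀ {B W : Type} [Group W] [Finite B] {M : CoxeterMatrix B} (cs : CoxeterSystem M W) (δ : ℕ),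
  Hyp cs δ → ∃ g0 : ℕ, G0 cs g0

/-- H5 (uses H1, H2, A7, A9). Pairwise crossing families are near a common chamber. PROOF. `z_u ∈ Car u` nearest to `o = 1`; take `u ∈ F` with `d(o, z_u)` maximal, `z = z_u`.
For `v ∈ F`, `v ≠ u`: `p ∈ Car u`, `D_v(p) ≤ c1 = 2N` (A7, A9). H2: `G2(o,p;z_u) ≤ κ = 6δ+3`, `G2(o,p;z_v) ≤ 6δ + c1 + 2`. Four points `o, p, z_u, z_v` and
`d(o,z_v) ≤ d(o,z_u)` give `G2(z_v,p;z_u) ≤ 2κ + 2δ`; H1: `D_v(z_u) ≤ G2(z_v,p;z_u) + max 1 c1 + 2δ`. -/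
def H5_stmt : Prop := ∀ {B W : Type} [Group W] [Finite B] {M : CoxeterMatrix B} (cs : CoxeterSystem M W) (δ : ℕ),
  Hyp cs δ → ∃ c6 : ℕ, ∀ F : Finset (Wall cs), (∀ v ∈ F, ∀ v' ∈ F, v ≠ v' → (cw cs).Cross v v') →
    ∃ z : W, ∀ u ∈ F, DD cs u z ≤ c6

/-- H5b (uses H5, A19b). -/
def H5b_stmt : Prop := ∀ {B W : Type} [Group W] [Finite B] {M : CoxeterMatrix B} (cs : CoxeterSystem M W) (δ : ℕ),
  Hyp cs δ → ∃ D : ℕ, DB cs D

/-- H6a (uses H1, H2, A7, A9, A14, A15, A19b). PROOF. `v ∈ F` separates two consecutive chambers `x_i, x_{i+1}` of a geodesic from `x` to `y`, so `D_v(x_i) = 1`; `p ∈ Car r` with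
`D_v(p) ≤ 2N`. `G2(x_i,p;x) ≤ G2(y,p;x) ≤ 6δ+3` (H2 with `o = y`, `z = x`), so `D_v(x)` is bounded by H1; A19b. -/
def H6a_stmt : Prop := ∀ {B W : Type} [Group W] [Finite B] {M : CoxeterMatrix B} (cs : CoxeterSystem M W) (δ : ℕ),
  Hyp cs δ → ∃ c7 : ℕ, ∀ (r : Wall cs) (x y : W), x ∈ Car cs r → (∀ z ∈ Car cs r, dd cs y x ≤ dd cs y z) →
    ∀ F : Finset (Wall cs), (∀ v ∈ F, (cw cs).Sep v x y ∧ (cw cs).Cross v r) → F.card ≤ c7

/-- H6 (uses H6a, H5b, W4, A5, A22, A3). Disjoint walls not separated by an `m`-chain are close. PROOF. `x ∈ Car r`, `y ∈ Car r'` with `l = d(x,y)` minimal. `r` does not separate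
`x, y` (otherwise `r x` is nearer), same for `r'`. Of the `l` walls separating `x, y` at least `l - 2 c7` cross neither `r` nor `r'` (H6a twice); they separate `r` from `r'`
(A22: `Car r` is on the side of `x`). W4: if `(m-1) D < l - 2 c7` there is an `m`-chain. So `l ≤ (m-1) D + 2 c7`, `D_r(x) = 1`, `D_{r'}(x) ≤ 1 + 2 l`. -/
def H6_stmt : Prop := ∀ {B W : Type} [Group W] [Finite B] {M : CoxeterMatrix B} (cs : CoxeterSystem M W) (δ : ℕ),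
  Hyp cs δ → ∀ m : ℕ, ∃ l : ℕ, ∀ r r' : Wall cs, (cw cs).Dis r r' → ¬ (cw cs).SepCh m r r' →
    ∃ x : W, DD cs r x ≤ l ∧ DD cs r' x ≤ l

/-- H7 (uses H6, R9, A7, A10, A17, A19, A21, A4c, W3). Deep subgroups exist. PROOF. `M0` = product of the non-zero `M i j`; `(v v')^M0 = 1` for crossing `v, v'`. Let `H` (R9) avoid
(a) `p.1 p.2` for `p ∈ P` (A21), `p.1 ≠ p.2`; (b) `ρ ρ'` and `(ρ ρ')^M0` for reflections `ρ ≠ ρ'` of length `≤ l` (`l` from H6) which are disjoint (A17: these are `≠ 1`); finite sets.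
a1: `r' = h r h⁻¹` gives `r' r = h (r h⁻¹ r) ∈ H`, conjugate to an element of (a). Disjoint `r, r'` not separated by an `m`-chain: conjugate by `x` (H6) into (b).
c: same label: not crossing by a1, so disjoint, and `r' r ∈ H`. a2: `¬ SepCh m` since no wall is between (`0 < m`); adjacent labels: `v = h₁ • r`, `v' = h₂ • r'` cross,
`(v v')^M0 = 1`, and modulo `H`: `(r r')^M0 ∈ H`. -/
def H7_stmt : Prop := ∀ {B W : Type} [Group W] [Finite B] {M : CoxeterMatrix B} (cs : CoxeterSystem M W) (δ : ℕ),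
  Hyp cs δ → ∀ m : ℕ, 0 < m → ∃ H : Subgroup W, Deep cs H m

end Pool.Agent.helper53.DC
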