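import Pool.Agent.helper53.DC.Defs

/-! Basic lemmas on the Lorentz form. -/

set_option autoImplicit false

namespace Pool.Agent.helper53.DC

variable {Z : Type} [Fintype Z]

theorem lf_comm (v w : LL Z) : lf v w = lf w v := by
  unfold lf
  rw [mul_comm v.1]
  congr 1
  exact Finset.sum_congr rfl fun z _ => mul_comm _ _

theorem lf_add_left (u v w : LL Z) : lf (u + v) w = lf u w + lf v w := by
  unfold lf
  simp only [Prod.fst_add, Prod.snd_add, Pi.add_apply, add_mul, Finset.sum_add_distrib]
  ring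

theorem lf_smul_left (c : ℝ) (v w : LL Z) : lf (c • v) w = c * lf v w := by
  unfold lf
  simp only [Prod.smul_fst, Prod.smul_snd, Pi.smul_apply, smul_eq_mul, mul_assoc, ← Finset.mul_sum]
  ring

theorem lf_add_right (u v w : LL Z) : lf u (v + w) = lf u v + lf u w := by
  rw [lf_comm, lf_add_left, lf_comm v, lf_comm w]

theorem lf_smul_right (c : ℝ) (v w : LL Z) : lf v (c • w) = c * lf v w := by
  rw [lf_comm, lf_smul_left, lf_comm]

theorem lf_neg_left (v w : LL Z) : lf (-v) w = -lf v w := by
  have h := lf_smul_left (-1) v w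
  rwa [neg_one_smul, neg_one_mul] at h

theorem lf_neg_right (v w : LL Z) : lf v (-w) = -lf v w := by
  rw [lf_comm, lf_neg_left, lf_comm]

theorem lf_sub_left (u v w : LL Z) : lf (u - v) w = lf u w - lf v w := by
  rw [sub_eq_add_neg, lf_add_left, lf_neg_left, sub_eq_add_neg]

theorem lf_sub_right (u v w : LL Z) : lf u (v - w) = lf u v - lf u w := by
  rw [sub_eq_add_neg, lf_add_right, lf_neg_right, sub_eq_add_neg]

theorem lf_x0_left (v : LL Z) : lf (x0 : LL Z) v = -v.1 := by simp [lf, x0]

theorem lf_x0_right (v : LL Z) : lf v (x0 : LL Z) = -v.1 := by rw [lf_comm, lf_x0_left]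

theorem lf_x0_x0 : lf (x0 : LL Z) x0 = -1 := by rw [lf_x0_left]; rfl

theorem x0_mem_Hy : (x0 : LL Z) ∈ Hy Z := ⟨lf_x0_x0, by show (0 : ℝ) < 1; norm_num⟩

theorem rf_add (n v w : LL Z) : rf n (v + w) = rf n v + rf n w := by
  unfold rf; rw [lf_add_right]; module

theorem rf_smul (n : LL Z) (c : ℝ) (v : LL Z) : rf n (c • v) = c • rf n v := by
  unfold rf; rw [lf_smul_right]; module

theorem rf_sub (n v w : LL Z) : rf n (v - w) = rf n v - rf n w := by
  unfold rf; rw [lf_sub_right]; module

theorem rf_neg (n v : LL Z) : rf n (-v) = -rf n v := by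
  unfold rf; rw [lf_neg_right]; module

theorem lf_rf_left {n : LL Z} (hn : lf n n = 1) (v : LL Z) : lf n (rf n v) = -lf n v := by
  unfold rf; rw [lf_sub_right, lf_smul_right, hn]; ring

theorem lf_rf_rf {n : LL Z} (hn : lf n n = 1) (v w : LL Z) : lf (rf n v) (rf n w) = lf v w := by
  have h1 : lf (rf n v) (rf n w) = lf v (rf n w) - 2 * lf n v * lf n (rf n w) := by
    conv_lhs => rw [show rf n v = v - (2 * lf n v) • n from rfl]
    rw [lf_sub_left, lf_smul_left]
  rw [h1, lf_rf_left hn]
  unfold rf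
  rw [lf_sub_right, lf_smul_right, lf_comm v n]
  ring

theorem rf_rf {n : LL Z} (hn : lf n n = 1) (v : LL Z) : rf n (rf n v) = v := by
  have h : lf n (rf n v) = -lf n v := lf_rf_left hn v
  conv_lhs => unfold rf
  rw [show lf n (v - (2 * lf n v) • n) = -lf n v from h]
  module

theorem lf_rf_adj {n : LL Z} (hn : lf n n = 1) (v w : LL Z) : lf (rf n v) w = lf v (rf n w) := by
  rw [← lf_rf_rf hn v (rf n w), rf_rf hn]

theorem rf_comm {n n' : LL Z} (h : lf n n' = 0) (v : LL Z) : rf n (rf n' v) = rf n' (rf n v) := by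
  unfold rf
  rw [lf_sub_right, lf_smul_right, h, lf_sub_right, lf_smul_right, lf_comm n' n, h]
  module

theorem rf_self {n : LL Z} (hn : lf n n = 1) : rf n n = -n := by
  unfold rf; rw [hn]; module

/-- The reflection as a linear map. -/
def rfL (n : LL Z) : LL Z →ₗ[ℝ] LL Z where
  toFun := rf n
  map_add' := rf_add n
  map_smul' := fun c v => rf_smul n c v

theorem kap_add (n : ℕ → LL Z) (k : ℕ) (v w : LL Z) : kap n k (v + w) = kap n k v + kap n k w := by
  induction k generalizing v w with
  | zero => rfl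
  | succ k ih => show kap n k (rf (n k) (v + w)) = _; rw [rf_add, ih]; rfl

theorem kap_smul (n : ℕ → LL Z) (k : ℕ) (c : ℝ) (v : LL Z) : kap n k (c • v) = c • kap n k v := by
  induction k generalizing v with
  | zero => rfl
  | succ k ih => show kap n k (rf (n k) (c • v)) = _; rw [rf_smul, ih]; rfl

theorem lf_kap {n : ℕ → LL Z} {k : ℕ} (h : ∀ i < k, lf (n i) (n i) = 1) (v w : LL Z) :
    lf (kap n k v) (kap n k w) = lf v w := by
  induction k generalizing v w with
  | zero => rfl
  | succ k ih =>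
    show lf (kap n k (rf (n k) v)) (kap n k (rf (n k) w)) = _
    rw [ih (fun i hi => h i (by omega)), lf_rf_rf (h k (by omega))]

end Pool.Agent.helper53.DC
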