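import Pool.Agent.helper53.DC.SpecA
import Pool.Agent.helper53.DC.Lor

/-! PART I: Lorentz geometry, the twisted reflection representation, discreteness. (`Lor.lean` contains proved basic lemmas on
`lf`, `rf`, `kap`.) -/

set_option autoImplicit false

namespace Pool.Agent.helper53.DC

/-- I1. Reversed Cauchy-Schwarz. -/
def I1_stmt : Prop := ∀ {Z : Type} [Fintype Z],
  (∀ y ∈ Hy Z, ∀ y' ∈ Hy Z, lf y y' ≤ -1) ∧
  (∀ (t : LL Z), lf t t < 0 → ∀ y ∈ Hy Z, ∀ z ∈ Hy Z, 0 < lf t z → 0 < lf t y) ∧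
  (∀ (u v : LL Z), lf u u < 0 → lf v v < 0 → lf u u * lf v v ≤ (lf u v) ^ 2) ∧
  (∀ (n : LL Z), lf n n = 1 → ∀ y ∈ Hy Z, rf n y ∈ Hy Z)

/-- I2 (uses I1). Growth across two far apart hyperplanes. PROOF. `c = lf ν ν' ≥ 2`, `T = - lf ν y`, `T' = - lf ν' y ≥ 0`, `t = ν' - c ν`: `lf t ν = 0`,
`lf t t = 1 - c^2 < 0`, `lf t z > 0`, so `lf t y > 0` (I1). `y' = y + T ν` is orthogonal to `ν`, `lf y' y' = -1 - T^2`,
`lf t y' = lf t y`, so `(lf t y)^2 ≥ (c^2 - 1)(1 + T^2)` (I1). `T' = c T - lf t y`. If `T ≤ 0` then `T' < 0`. So `T > 0` and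
`T' ≤ (c - √(c^2-1)) T ≤ T / 2`. -/
def I2_stmt : Prop := ∀ {Z : Type} [Fintype Z] (ν ν' y z : LL Z), lf ν ν = 1 → lf ν' ν' = 1 → 2 ≤ lf ν ν' →
  y ∈ Hy Z → z ∈ Hy Z → lf ν z < 0 → 0 < lf ν' z → lf ν' y ≤ 0 → 2 * (-lf ν' y) ≤ -lf ν y

/-- I3. PROOF. `ν = (ν₀, ν⃗)`, `ν₀ ≤ 0`, `|ν⃗|^2 = 1 + ν₀^2`, `|y⃗|^2 = y₀^2 - 1`, `T := -lf ν y ≥ 0` and `ν⃗·y⃗ = -T + ν₀ y₀`, so
`(1 + ν₀^2)(y₀^2 - 1) ≥ (T + |ν₀| y₀)^2`, hence `y₀^2 ≥ 1 + T^2`. -/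
def I3_stmt : Prop := ∀ {Z : Type} [Fintype Z] (ν y : LL Z), lf ν ν = 1 → 0 ≤ lf ν x0 → y ∈ Hy Z →
  lf ν y ≤ 0 → 1 + (lf ν y) ^ 2 ≤ y.1 ^ 2

/-- I4. Windows. PROOF. (first) `lf (kap n i (n i)) (kap n j x0) = - lf (n i) (R_{i+1} ... R_{j-1} x0)` and
`R_{i+1} ... R_{j-1} x0 = x0 - ∑ d_k n_k` (`i < k < j`) with all `d_k ≥ 0` (downward induction on the first index).
(second) `lf (kap n i (n i)) (kap n j x0) = lf (R_j ... R_{i-1} n_i) x0`, `R_j ... R_{i-1} n_i = ∑ c_k n_k` (`j ≤ k ≤ i`), `c_k ≥ 0`, `c_i = 1`. -/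
def I4_stmt : Prop := ∀ {Z : Type} [Fintype Z] (n : ℕ → LL Z) (a : ℝ), 0 < a → ∀ N : ℕ,
  (∀ i < N, lf (n i) (n i) = 1 ∧ lf (n i) x0 = a) →
  (∀ i j, i < j → j ≤ N → (∀ p q, i ≤ p → p < q → q < j → lf (n p) (n q) ≤ 0) →
    lf (kap n i (n i)) (kap n j x0) ≤ -a) ∧
  (∀ i j, j ≤ i → i < N → (∀ p q, j ≤ p → p < q → q ≤ i → lf (n p) (n q) ≤ 0) →
    a ≤ lf (kap n i (n i)) (kap n j x0))

/-- I5. Products along a chain. PROOF. `lf (kap n i (n i)) (kap n j (n j)) = - lf (n i) (R_{i+1} ... R_{j-1} n_j)` and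
`R_{i+1} ... R_{j-1} n_j = ∑_{i<l≤j} c_l n_l`, `c_j = 1`, `c_l = ∑_{l<l'≤j} 2 M(l,l') c_{l'} ≥ 0`, `M(p,q) = -lf (n p) (n q)`. With `S_p = ∑_{q ≥ p} c_{u q}`
(`1 ≤ p ≤ k+1`): `S_{k+1} = 1`, `S_p ≥ (1 + 2μ) S_{p+1}`, and the value is `≥ μ S_1`. -/
def I5_stmt : Prop := ∀ {Z : Type} [Fintype Z] (n : ℕ → LL Z) (N : ℕ),
  (∀ i < N, lf (n i) (n i) = 1) → ∀ (k : ℕ) (u : ℕ → ℕ) (μ : ℝ), 0 ≤ μ →
  (∀ p ≤ k, u p < u (p + 1)) → u (k + 1) < N →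
  (∀ p q, u 0 ≤ p → p < q → q ≤ u (k + 1) → lf (n p) (n q) ≤ 0) →
  (∀ p q, p < q → q ≤ k + 1 → lf (n (u p)) (n (u q)) ≤ -μ) →
  μ * (1 + 2 * μ) ^ k ≤ lf (kap n (u 0) (n (u 0))) (kap n (u (k + 1)) (n (u (k + 1))))

/-- I6 (uses I1 - I5). Local to global. PROOF. `Q = T / (k0+1)`, `ν_q = kap n (u ((k0+1) q)) (n _)`, `q ≤ Q`. Consecutive `ν`'s have product `≥ 2` (I5). With
`z = kap n (u ((k0+1)(q+1))) x0`: `lf ν_q z ≤ -a`, `lf ν_{q+1} z ≥ a` (I4). `lf ν_Q y ≤ -a` for `y = kap n N x0` (I4, as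
`N - u ((k0+1) Q) ≤ (k0+1) G`). By I2 downwards `-lf ν_0 y ≥ a 2^Q`; `lf ν_0 x0 ≥ a` (I4); I3. (`kap n k x0 ∈ Hy` by I1.) -/
def I6_stmt : Prop := ∀ {Z : Type} [Fintype Z] (n : ℕ → LL Z) (a μ : ℝ) (N G T k0 : ℕ) (u : ℕ → ℕ), 0 < a → 0 ≤ μ →
  2 ≤ μ * (1 + 2 * μ) ^ k0 →
  (∀ i < N, lf (n i) (n i) = 1 ∧ lf (n i) x0 = a) →
  (∀ p q, p < q → q < N → q - p ≤ (k0 + 1) * G → lf (n p) (n q) ≤ 0) →
  (∀ s < T, u s < u (s + 1) ∧ u (s + 1) ≤ u s + G) → u 0 ≤ G → u T < N → N ≤ u T + G →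
  (∀ s s', s < s' → s' ≤ T → s' ≤ s + (k0 + 1) → lf (n (u s)) (n (u s')) ≤ -μ) →
  kap n N x0 ∈ Hy Z ∧ 1 + (a * 2 ^ (T / (k0 + 1))) ^ 2 ≤ (kap n N (x0 : LL Z)).1 ^ 2

/-- The data behind the representation for the visibility radius `R`. -/
def FSd {B W : Type} [Group W] {M : CoxeterMatrix B} (cs : CoxeterSystem M W) (a μ : ℝ) (R : ℕ) : Prop :=
  ∃ (Z : Type) (_ : Fintype Z) (_ : MulAction W Z) (β : Wall cs → Z → ℝ),
    (∀ (g : W) r z, β (g • r) (g • z) = β r z) ∧ (∀ r, ∑ z, β r z * β r z = 1 + a ^ 2) ∧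
    (∀ r r', (cw cs).Cross r r' → ∑ z, β r z * β r' z = a ^ 2) ∧
    (∀ r r', (cw cs).Dis r r' → Vis cs R r r' → ∑ z, β r z * β r' z ≤ a ^ 2 - μ)

/-- I7 (uses A2, A8). The twisted reflection representation. PROOF. `n_r = (-a, β r)`: `lf n_r n_r = 1`, `lf n_r n_r' = 0` if `Res r r'`, `r ≠ r'`
(A8: they cross). `κ` from A2 with values in `LL Z ≃ₗ[ℝ] LL Z`, `lab r = rf n_r`. `τ g (t, f) = (t, z ↦ f (g⁻¹ z))`; `τ g ∘ rf n_r ∘ τ g⁻¹ = rf n_{g•r}`.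
`κ (g h) = κ g * (τ g * κ h * τ g⁻¹)` (induction on a word of `h`), so `ρ g = κ g * τ g` is a homomorphism. -/
def I7_stmt : Prop := ∀ {B W : Type} [Group W] {M : CoxeterMatrix B} (cs : CoxeterSystem M W)
  (Z : Type) [Fintype Z] [MulAction W Z] (β : Wall cs → Z → ℝ) (a : ℝ),
  (∀ (g : W) r z, β (g • r) (g • z) = β r z) → (∀ r, ∑ z, β r z * β r z = 1 + a ^ 2) →
  (∀ r r', (cw cs).Cross r r' → ∑ z, β r z * β r' z = a ^ 2) →
  ∃ ρ : W →* Module.End ℝ (LL Z), (∀ g v w, lf (ρ g v) (ρ g w) = lf v w) ∧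
    ∀ (N : ℕ) (x : ℕ → W) (w : ℕ → Wall cs), x 0 = 1 →
      (∀ k < N, ∃ i, w k = wall cs (x k) i ∧ x (k + 1) = x k * cs.simple i) →
      ρ (x N) x0 = kap (fun k => ((-a, β (w k)) : LL Z)) N x0

/-- I8. From a proper representation to the conclusion of the frozen statement. PROOF. `n = Fintype.card Z`, matrix of `ρ g` in the basis
`x0, e_z`; `ρ' g 0 0 = (ρ g x0).1`. Injective: `ρ' g = 1` gives `(ρ g x0).1 = 1`. Discrete: the open set `{A | A 0 0 < ρ' g 0 0 + 1}` contains only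
finitely many points of the range; finite sets are closed. -/
def I8_stmt : Prop := ∀ {W : Type} [Group W] (Z : Type) [Fintype Z] (ρ : W →* Module.End ℝ (LL Z)),
  (∀ g v w, lf (ρ g v) (ρ g w) = lf v w) → (∀ g, 0 < (ρ g x0).1) → (∀ g, g ≠ 1 → 1 < (ρ g x0).1) →
  (∀ C : ℝ, {g | (ρ g x0).1 ≤ C}.Finite) →
  ∃ (n : ℕ) (ρ' : W →* Matrix (Fin (n + 1)) (Fin (n + 1)) ℝ), Function.Injective ρ' ∧
    (∀ g : W, (ρ' g).transpose
          * Matrix.diagonal (fun i : Fin (n + 1) => if i = 0 then (-1 : ℝ) else 1) * ρ' g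
        = Matrix.diagonal (fun i : Fin (n + 1) => if i = 0 then (-1 : ℝ) else 1)) ∧
    (∀ g : W, 0 < ρ' g 0 0) ∧ DiscreteTopology (Set.range ρ')

/-! ## PART D: the chain lemma -/

/-- Hypothesis: at most `g0` walls cross two given disjoint walls. -/
def G0 {B W : Type} [Group W] {M : CoxeterMatrix B} (cs : CoxeterSystem M W) (g0 : ℕ) : Prop :=
  ∀ r r', (cw cs).Dis r r' → ∀ F : Finset (Wall cs),
    (∀ v ∈ F, (cw cs).Cross v r ∧ (cw cs).Cross v r') → F.card ≤ g0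

/-- Hypothesis: families of pairwise crossing walls have at most `D` elements. -/
def DB {B W : Type} [Group W] {M : CoxeterMatrix B} (cs : CoxeterSystem M W) (D : ℕ) : Prop :=
  ∀ F : Finset (Wall cs), (∀ v ∈ F, ∀ v' ∈ F, v ≠ v' → (cw cs).Cross v v') → F.card ≤ D

/-- D1 (uses A15, W1). PROOF. `-` = side of `x 0`, `+` = side of `x n`. The empty quadrant of `(w i, w j)` is `(w i ^-, w j ^+)`. `(w l, w j)`:
`(-,-) ∋ x 0`, `(-,+) ∋ x l`, `(+,+) ∋ x n`, and `w l ^+ ∩ w i ^- ≠ ∅`, `w i ^- ⊆ w j ^-`. -/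
def D1_stmt : Prop := ∀ {B W : Type} [Group W] {M : CoxeterMatrix B} (cs : CoxeterSystem M W)
  (n : ℕ) (x : ℕ → W) (w : ℕ → Wall cs), Gal cs n x w → ∀ i j l, i < j → j < l → l < n →
    (cw cs).Dis (w i) (w j) → (cw cs).Cross (w l) (w i) → (cw cs).Cross (w l) (w j)

/-- D2 (uses D1, A15, W1). The chain lemma. PROOF. `G1 = 2 g0 + 1`, `G = G1 + D + 1`, `G2 = 2 G + G1 + 1`. Call `i` bad if `w i` crosses `w (i+1), ..., w (i+G)`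
(`i + G < n`). In a window `[p, p + G1)` with `p + G < n` at most `g0` indices are bad: all of them cross `w l` for `p + G1 ≤ l ≤ p + G`, these are
`> D` walls so two of them are disjoint. If `i` is good choose `j ∈ (i, i+G]` with `w j` disjoint from `w i`; at most `g0` indices `l > j` have `w l` crossing
`w i` (they cross `w j` too by D1, and walls of a geodesic are different); so among `j < l ≤ j + G1` there is a good one with `w l` disjoint from `w i`, as long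
as the window stays `≤ n`. Consecutive disjoint implies pairwise disjoint by D1. Stop when less than `G2` steps are left. -/
def D2_stmt : Prop := ∀ {B W : Type} [Group W] {M : CoxeterMatrix B} (cs : CoxeterSystem M W)
  (g0 D : ℕ), G0 cs g0 → DB cs D → ∃ G2 : ℕ, ∀ (n : ℕ) (x : ℕ → W) (w : ℕ → Wall cs), 0 < n → Gal cs n x w →
    ∃ (T : ℕ) (u : ℕ → ℕ), u 0 ≤ G2 ∧ (∀ s < T, u s < u (s + 1) ∧ u (s + 1) ≤ u s + G2) ∧ u T < n ∧ n ≤ u T + G2 ∧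
      ∀ s s', s < s' → s' ≤ T → (cw cs).Dis (w (u s)) (w (u s'))

/-- D3 (uses I6, I7, I8, D2, A14, A15, A3, W1, A19). From the data to the conclusion. PROOF. `G2` from D2; `k0` with `μ (1+2μ)^k0 ≥ 2`; `R = (k0+1) G2 + 1`; data for
this `R`; `ρ` from I7. For `g ≠ 1` take a geodesic gallery from `1` to `g`, `n k = (-a, β (w k))`: `lf (n p) (n q) = -a^2 + ∑ β β'`; walls `w p, w q`
with `q - p ≤ (k0+1) G2` are `R`-visible, they cross (`lf = 0`) or are disjoint (`lf ≤ -μ`). I6: `(ρ g x0).1 ^ 2 ≥ 1 + (a 2^(T/(k0+1)))^2`, and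
`ℓ g ≤ (T + 2) G2`, so `T → ∞` with `ℓ g`; balls are finite. -/
def D3_stmt : Prop := ∀ {B W : Type} [Group W] [Finite B] {M : CoxeterMatrix B} (cs : CoxeterSystem M W)
  (g0 D : ℕ) (a μ : ℝ), G0 cs g0 → DB cs D → 0 < a → 0 < μ → (∀ R, FSd cs a μ R) →
  ∃ (n : ℕ) (ρ' : W →* Matrix (Fin (n + 1)) (Fin (n + 1)) ℝ), Function.Injective ρ' ∧
    (∀ g : W, (ρ' g).transpose
          * Matrix.diagonal (fun i : Fin (n + 1) => if i = 0 then (-1 : ℝ) else 1) * ρ' g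
        = Matrix.diagonal (fun i : Fin (n + 1) => if i = 0 then (-1 : ℝ) else 1)) ∧
    (∀ g : W, 0 < ρ' g 0 0) ∧ DiscreteTopology (Set.range ρ')

end Pool.Agent.helper53.DC
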