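import Pool.Agent.helper53.DC.SpecM
import Pool.Agent.helper53.DC.SpecH

/-! PART K: the trees of an `H`-orbit of crossing pairs, cocompactness, separability. -/

set_option autoImplicit false

namespace Pool.Agent.helper53.DC

/-- Abstract form of `G0`. -/
def WS.G0 {X Wl : Type} (S : WS X Wl) (g0 : ℕ) : Prop :=
  ∀ r r', S.Dis r r' → ∀ F : Finset Wl, (∀ v ∈ F, S.Cross v r ∧ S.Cross v r') → F.card ≤ g0

/-- Non-backtracking paths of walls. -/
structure WS.NB {X Wl : Type} (S : WS X Wl) (m n : ℕ) (u : ℕ → Wl) : Prop where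
  cr : ∀ i < n, S.Cross (u i) (u (i + 1))
  ch : ∀ i, i + 2 ≤ n → S.SepCh m (u i) (u (i + 2))

section
variable {B W : Type} [Group W] {M : CoxeterMatrix B} (cs : CoxeterSystem M W)

/-- The graph of the `H`-orbit of the pair `w, w'`. -/
def TG (H : Subgroup W) (w w' : Wall cs) : SimpleGraph (Wall cs) where
  Adj u u' := u ≠ u' ∧ ∃ h ∈ H, (h • w = u ∧ h • w' = u') ∨ (h • w' = u ∧ h • w = u')
  symm := ⟨by
    rintro u u' ⟨hne, h, hh, h1⟩
    exact ⟨hne.symm, h, hh, h1.symm.imp And.symm And.symm⟩⟩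
  loopless := ⟨fun u h => h.1 rfl⟩

/-- The component of `w`. -/
def T0 (H : Subgroup W) (w w' : Wall cs) : Set (Wall cs) := {u | (TG cs H w w').Reachable w u}

theorem TG_adj_smul {H : Subgroup W} {w w' : Wall cs} {h : W} (hh : h ∈ H) {u u' : Wall cs}
    (ha : (TG cs H w w').Adj u u') : (TG cs H w w').Adj (h • u) (h • u') := by
  obtain ⟨hne, g, hg, h1⟩ := ha
  refine ⟨fun h2 => hne (by
    have := congrArg (fun t => h⁻¹ • t) h2
    simpa [inv_smul_smul] using this), h * g, H.mul_mem hh hg, ?_⟩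
  rcases h1 with ⟨h2, h3⟩ | ⟨h2, h3⟩
  · exact Or.inl ⟨by rw [mul_smul, h2], by rw [mul_smul, h3]⟩
  · exact Or.inr ⟨by rw [mul_smul, h2], by rw [mul_smul, h3]⟩

theorem TG_reach_smul {H : Subgroup W} {w w' : Wall cs} {h : W} (hh : h ∈ H) {u u' : Wall cs}
    (ha : (TG cs H w w').Reachable u u') : (TG cs H w w').Reachable (h • u) (h • u') := by
  obtain ⟨p⟩ := ha
  induction p with
  | nil => exact SimpleGraph.Reachable.refl _
  | cons h1 p ih => exact (SimpleGraph.Adj.reachable (TG_adj_smul cs hh h1)).trans ih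

/-- The stabilizer in `H` of the component of `w`. -/
def KK (H : Subgroup W) (w w' : Wall cs) : Subgroup W where
  carrier := {h | h ∈ H ∧ (TG cs H w w').Reachable w (h • w)}
  one_mem' := ⟨H.one_mem, by rw [one_smul]⟩
  mul_mem' := by
    rintro a b ⟨ha, ha'⟩ ⟨hb, hb'⟩
    refine ⟨H.mul_mem ha hb, ha'.trans ?_⟩
    rw [mul_smul]
    exact TG_reach_smul cs ha hb'
  inv_mem' := by
    rintro a ⟨ha, ha'⟩
    refine ⟨H.inv_mem ha, ?_⟩
    have h := TG_reach_smul cs (H.inv_mem ha) ha'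
    rw [inv_smul_smul] at h
    exact h.symm

/-- The chambers adjacent to the walls of the component. -/
def XK (H : Subgroup W) (w w' : Wall cs) : Set W := {x | ∃ u ∈ T0 cs H w w', x ∈ Car cs u}

end

/-- K1 (uses W1, W2, W3). The interior of a non-backtracking path. PROOF. For every interior `i` let `v^i_0, ..., v^i_{m-1}` be the chain separating `u (i-1)` and `u (i+1)`; by W2 all cross `u i`.
(a) for all `c` and all `c' ≥ g0`: `v^i_c` and `v^{i+1}_{c'}` are disjoint. They are different (`v^{i+1}_{c'}` is disjoint from `u i`). If they cross, then `v^i_c` crosses `v^{i+1}_j` for all `j ≤ c'` (W2: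
it crosses `u i` and `v^{i+1}_{c'}`), so the `c'+1 > g0` walls `v^{i+1}_j` cross both `v^i_c` and `u (i+1)`, which are disjoint. (a') mirror image: disjoint for all `c'` and all `c < m - g0`.
(b) `+` side of `v^i_c` = side of `u (i+1)`. For `g0 ≤ c < m - g0` and `i < b ≤ n`: `u b` is on the `+` side, by induction on `b - i`: `b > i + 1`: choose `c'` in the same range; `v^i_c` crosses `u i` which is on
the `-` side of `σ = v^{i+1}_{c'}`, so `v^i_c` is on the `-` side of `σ`, `u b` on the `+` side; and `σ` is on the `+` side of `v^i_c` since it crosses `u (i+1)`; so `u b` is on the `+` side of `v^i_c` (W3). Mirror image for `a < i`.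
Take `v c = v^i_{g0 + c}`. -/
def K1_stmt : Prop := ∀ {X Wl : Type} (S : WS X Wl), S.Good → ∀ g0 : ℕ, S.G0 g0 → ∀ (m n : ℕ) (u : ℕ → Wl), 2 * g0 < m →
  S.NB m n u → ∀ i, 0 < i → i < n → ∃ v : ℕ → Wl, (∀ c < m - 2 * g0, S.Cross (v c) (u i)) ∧
    ∀ a b, a < i → i < b → b ≤ n → S.IsCh (m - 2 * g0) (u a) (u b) v

/-- K2 (uses K1, W1, W2, W3, W4). PROOF. Suppose `t_0, ..., t_{g0}` is a chain separating `u j` from `v`. Of the `m' = m - 2 g0` walls `σ_c` (K1) crossing `u j` at most `g0` cross `t_0` (disjoint from `u j`); the others are disjoint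
from `t_0`, on the side of `u j`; so `t_0` separates them from `v`, and `v` is on the same side of `σ_c` as `t_0`. At least `(m' - g0)/2 ≥ g0 + 1` of them have `v` on the same side, say that of `u n`: they separate `u 0` from `v`,
pairwise disjoint: `SepCh (g0+1) (u 0) v` (W4 with `D = 1`), contradiction; other side: `SepCh (g0+1) (u n) v`. -/
def K2_stmt : Prop := ∀ {X Wl : Type} (S : WS X Wl), S.Good → ∀ g0 : ℕ, S.G0 g0 → ∀ (m n : ℕ) (u : ℕ → Wl), 5 * g0 + 3 ≤ m →
  S.NB m n u → ∀ (v : Wl) (j : ℕ), 0 < j → j < n → ¬ S.SepCh (g0 + 1) (u 0) v → ¬ S.SepCh (g0 + 1) (u n) v →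
    ¬ S.SepCh (g0 + 1) (u j) v

/-- K3 (uses K1, W1, W2, W3). PROOF. (`SepCh k a b` with `k > 0` implies `Dis a b`.) `n = 0`: `i = 0`. `n = 1`: `i = 0`. Suppose `t_0, ..., t_{g0}` separates `u 0` from `v'`. `v' ≠ u 1` (since `u 0` crosses `u 1` and is disjoint from `v'`), so `u 1` crosses
`u 0` and `v'`, so all `t_i` (W2); `v ≠ u 0` (`v` crosses `v'`), so `v` crosses `u 0` and `v'`, so all `t_i`: `g0 + 1` walls cross the disjoint walls `u 1, v`: contradiction. `n ≥ 2` is impossible: the `m - 2 g0 > 2 g0` walls `σ_c` at `u 1` (K1)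
separate `u 0` from `u n`. If `σ_c` crosses neither `v` nor `v'` (it is different from them since it crosses `u 1`) then `v` is on the side of `u 0`, `v'` on the side of `u n`, so `v, v'` are disjoint. But at most `g0` walls cross `v` and `u 1`,
at most `g0` cross `v'` and `u 1`. -/
def K3_stmt : Prop := ∀ {X Wl : Type} (S : WS X Wl), S.Good → ∀ g0 : ℕ, S.G0 g0 → ∀ (m n : ℕ) (u : ℕ → Wl), 5 * g0 + 3 ≤ m →
  S.NB m n u → ∀ (v v' : Wl), S.Cross v v' → (u 0 = v ∨ S.Cross (u 0) v) → (u n = v' ∨ S.Cross (u n) v') →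
    (∀ i, 0 < i → i ≤ n → S.Dis (u i) v) → (∀ i < n, S.Dis (u i) v') →
    ∃ i ≤ n, ¬ S.SepCh (g0 + 1) (u i) v ∧ ¬ S.SepCh (g0 + 1) (u i) v'

/-- K4. Helly for subtrees of a tree (a component of a forest). -/
def K4_stmt : Prop := ∀ {V ι : Type} (T : SimpleGraph V), T.IsAcyclic → ∀ (F : Finset ι) (A : ι → Set V), F.Nonempty →
  (∀ i ∈ F, ∀ a ∈ A i, ∀ b ∈ A i, ∀ p : T.Walk a b, p.IsPath → ∀ c ∈ p.support, c ∈ A i) →
  (∀ i ∈ F, ∀ j ∈ F, (A i ∩ A j).Nonempty) → (∀ i ∈ F, ∀ a ∈ A i, ∀ b ∈ A i, T.Reachable a b) →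
  ∃ x, ∀ i ∈ F, x ∈ A i

/-- K5 (uses A4c). Paths of the graph are non-backtracking. PROOF. Adjacent vertices cross (A4c). The labels alternate between `lab w` and `lab w'` (different by `Deep.a1`), so `p i` and `p (i+2)` have the same
label; they are different (path); `Deep.c`. -/
def K5_stmt : Prop := ∀ {B W : Type} [Group W] {M : CoxeterMatrix B} (cs : CoxeterSystem M W) (H : Subgroup W) (m : ℕ)
  (w w' : Wall cs), Deep cs H m → (cw cs).Cross w w' → ∀ (a b : Wall cs) (p : (TG cs H w w').Walk a b), p.IsPath →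
    (cw cs).NB m p.length p.getVert

/-- K6 (uses K1, K5, A6, W3). The graph is a forest, and vertices at distance at least two are disjoint. PROOF. K1 at any interior vertex of a path of length `≥ 2`: the end points are separated, so disjoint. A cycle minus one edge
would be a path of length `≥ 2` whose end points are adjacent, so cross. -/
def K6_stmt : Prop := ∀ {B W : Type} [Group W] {M : CoxeterMatrix B} (cs : CoxeterSystem M W) (H : Subgroup W) (m g0 : ℕ)
  (w w' : Wall cs), Deep cs H m → (cw cs).Cross w w' → G0 cs g0 → 2 * g0 < m →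
    (TG cs H w w').IsAcyclic ∧ ∀ (a b : Wall cs) (p : (TG cs H w w').Walk a b), p.IsPath → 2 ≤ p.length → (cw cs).Dis a b

/-- K7 (uses A4c, A6, A22, W1). A wall separating two chambers adjacent to vertices of a component crosses or is a vertex. PROOF. Otherwise every vertex of a path from `u` to `u'` is disjoint from `v`, so is on one side of `v`; consecutive ones cross each other, so
are on the same side. By A22 `x, x'` are on the same side. -/
def K7_stmt : Prop := ∀ {B W : Type} [Group W] {M : CoxeterMatrix B} (cs : CoxeterSystem M W) (H : Subgroup W)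
  (w w' : Wall cs), (cw cs).Cross w w' → ∀ (v : Wall cs) (x x' : W), x ∈ XK cs H w w' → x' ∈ XK cs H w w' → (cw cs).Sep v x x' →
    ∃ u ∈ T0 cs H w w', u = v ∨ (cw cs).Cross u v

/-- K8 (uses K2, K3, K4, K5, K6, A6, W1, W3). A common near vertex. PROOF. `A v = {u ∈ T0 | ¬ SepCh (g0+1) u v}`. Subtrees by K2 (and K5). Pairwise intersecting by K3: among all paths from `{u ∈ T0 | u = v ∨ Cross u v}` to `{u ∈ T0 | u = v' ∨ Cross u v'}`
take a shortest one. (`v = v'`: `Cross u v` or `u = v` implies `¬ SepCh (g0+1) u v`.) K4. -/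
def K8_stmt : Prop := ∀ {B W : Type} [Group W] {M : CoxeterMatrix B} (cs : CoxeterSystem M W) (H : Subgroup W) (m g0 : ℕ)
  (w w' : Wall cs), Deep cs H m → (cw cs).Cross w w' → G0 cs g0 → 5 * g0 + 3 ≤ m →
  ∀ F : Finset (Wall cs), (∀ v ∈ F, ∀ v' ∈ F, v ≠ v' → (cw cs).Cross v v') →
    (∀ v ∈ F, ∃ u ∈ T0 cs H w w', u = v ∨ (cw cs).Cross u v) →
    ∃ u ∈ T0 cs H w w', ∀ v ∈ F, ¬ (cw cs).SepCh (g0 + 1) u v

/-- K9 (uses H1, H2, H5, H6, A7, A9, A11, A6, W1). A near vertex gives a near chamber. PROOF. For `v ∈ F` there is `p ∈ Car u` with `D_v(p) ≤ c`: `v = u`: any; `v` crosses `u`: A7, A9; disjoint: H6, A11. `z` from H5 for `F`; `x ∈ Car u` nearest to `z`. H2: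
`G2(z,p;x) ≤ 6δ+3`; H1: `D_v(x) ≤ 6δ + 3 + max c6 c + 2δ`. (`F = ∅`: `Car u` is not empty.) -/
def K9_stmt : Prop := ∀ {B W : Type} [Group W] [Finite B] {M : CoxeterMatrix B} (cs : CoxeterSystem M W) (δ : ℕ), Hyp cs δ →
  ∀ k : ℕ, ∃ ρ : ℕ, ∀ (u : Wall cs) (F : Finset (Wall cs)), (∀ v ∈ F, ∀ v' ∈ F, v ≠ v' → (cw cs).Cross v v') →
    (∀ v ∈ F, ¬ (cw cs).SepCh k u v) → ∃ x ∈ Car cs u, ∀ v ∈ F, DD cs v x ≤ ρ

/-- K10 (uses K7, K8, K9, M5, M5b, M6, L5, A6, A11, A20, W5, W6). Cocompactness. PROOF. Corner lemma M6 with `C = hull (c '' XK)` and the sets `Thick {c x} ρ'`, `x ∈ XK`, `ρ' = ρ + 2`. Let `F` be a pairwise crossing family of walls crossing `C`; they cross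
`c '' XK` (W6), so are `wm v`, `v` in a finite set `F'` with `v` separating two chambers of `XK` (`IsWM.all`, `IsWM.sep`); `F'` is pairwise crossing (L5); K7, K8, K9: `x ∈ Car u`, `u ∈ T0`, `D_v(x) ≤ ρ`; A11: `z ∈ Car v` with `2 d(x,z) + 1 ≤ ρ`; `c z` and `c (v z)` are
separated by `wm v` and within `ρ'` of `c x` (L3), so in `Thick {c x} ρ'` (M5b). So `C ⊆ ⋃ Thick {c x} ρ'`, and M5 (for the convex set `hull {c x}`; or directly) bounds the distance. -/
def K10_stmt : Prop := ∀ {B W : Type} [Group W] [Finite B] {M : CoxeterMatrix B} (cs : CoxeterSystem M W) (δ : ℕ), Hyp cs δ →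
  ∀ (H : Subgroup W) (m g0 : ℕ) (w w' : Wall cs) (c : W → RA (labG cs H)) (wm : Wall cs → Wall (ra (labG cs H))),
    Deep cs H m → (cw cs).Cross w w' → G0 cs g0 → 5 * g0 + 3 ≤ m → IsDev cs H c → IsWM cs H c wm →
    ∃ ρ : ℕ, ∀ y ∈ (cw (ra (labG cs H))).hull (c '' XK cs H w w'), ∃ x ∈ XK cs H w w', dd (ra (labG cs H)) (c x) y ≤ ρ

/-- K11. Cofiniteness of `XK`. PROOF. `u ∈ T0` is `h • w` or `h • w'` with `h ∈ KK`. The stabilizers in `H` of `w` and of `w'` are contained in `KK`. `Car w`: for each `i` and each coset `H x` choose (if possible) one `x ∈ Car w` with `x⁻¹ w x = s i` in this coset; another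
`x' = h x` in the same coset with the same `i` satisfies `h • w = w`. -/
def K11_stmt : Prop := ∀ {B W : Type} [Group W] [Finite B] {M : CoxeterMatrix B} (cs : CoxeterSystem M W) (H : Subgroup W)
  (w w' : Wall cs), H.FiniteIndex → w ≠ w' → ∃ Φ : Set W, Φ.Finite ∧ ∀ x ∈ XK cs H w w', ∃ k ∈ KK cs H w w', ∃ f ∈ Φ, x = k * f

/-- Separability of the finite index subgroups of `KK` in `H`. -/
def SEP {B W : Type} [Group W] {M : CoxeterMatrix B} (cs : CoxeterSystem M W) (H : Subgroup W) (w w' : Wall cs) : Prop :=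
  ∀ K0 : Subgroup W, K0 ≤ KK cs H w w' → K0.relIndex (KK cs H w w') ≠ 0 → ∀ F : Set W, F.Finite →
    ∃ H0 : Subgroup W, H0.FiniteIndex ∧ K0 ≤ H0 ∧ H0 ≤ H ∧ ∀ f ∈ F, f ∈ H0 → f ∈ K0

/-- K12 (uses K10, K11, M5, M5b, M8, L1, L2, L3, L4, A19, A20, W5, W6, A4b). PROOF. `Y = Thick (hull (c '' XK)) ρ` with `ρ` so large that `1` and `(c f)⁻¹ = c f⁻¹`, `f ∈ F ∩ H`, are in `Y` (M5b). `c k * Y = Y` for `k ∈ KK` (L2, A4b). By M5, K10, K11 and finiteness of balls `Y`
is a finite union of orbits of `KK`, hence of `K0`. M8 for the group `H` and `c` restricted to `H` (a homomorphism by L2, injective by L3). -/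
def K12_stmt : Prop := ∀ {B W : Type} [Group W] [Finite B] {M : CoxeterMatrix B} (cs : CoxeterSystem M W) (δ : ℕ), Hyp cs δ →
  ∀ (H : Subgroup W) (m g0 : ℕ) (w w' : Wall cs), Deep cs H m → (cw cs).Cross w w' → G0 cs g0 → 5 * g0 + 3 ≤ m → SEP cs H w w'

end Pool.Agent.helper53.DC
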