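import Pool.Agent.helper53.DC.SpecI

/-! PART M: convexity in right-angled Coxeter groups. PART L: the developing map. -/

set_option autoImplicit false

namespace Pool.Agent.helper53.DC

/-! ## PART M -/

/-- M1. Types of walls. PROOF. The homomorphism `RA G →* Multiplicative (Γ → ZMod 2)`, `s ↦ e_s` (`cs.lift`) sends `x s x⁻¹` to `e_s`. -/
def M1_stmt : Prop := ∀ {Γ : Type} (G : SimpleGraph Γ), ∃ t : Wall (ra G) → Γ,
  (∀ x s, t (wall (ra G) x s) = s) ∧ ∀ (g : RA G) r, t (g • r) = t r

/-- M2 (uses A7, A8, M1). PROOF. `Res r r'`: `r = x q^a s x⁻¹`, `q = s s'`, `m(s,s') ≠ 0`. If `s = s'` then `r = r'`, impossible; so `G.Adj s s'`, `q^2 = 1`, `q s = s'`. -/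
def M2_stmt : Prop := ∀ {Γ : Type} (G : SimpleGraph Γ),
  (∀ s s', G.Adj s s' → (ra G).simple s * (ra G).simple s' = (ra G).simple s' * (ra G).simple s) ∧
  (∀ r r', (cw (ra G)).Cross r r' → ∃ x s s', G.Adj s s' ∧ r = wall (ra G) x s ∧ r' = wall (ra G) x s') ∧
  (∀ x s s', G.Adj s s' → (cw (ra G)).Cross (wall (ra G) x s) (wall (ra G) x s')) ∧
  (∀ x x' s s', (cw (ra G)).Cross (wall (ra G) x s) (wall (ra G) x' s') → G.Adj s s')

/-- M2b (uses M1, M2). Pairwise crossing families have at most `|Γ|` elements (the type is injective on them). -/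
def M2b_stmt : Prop := ∀ {Γ : Type} [Finite Γ] (G : SimpleGraph Γ), DB (ra G) (Nat.card Γ)

/-- M3 (uses M2). Sliding. PROOF. Downward induction on `k`; `x (k+1) = x k * s_k ∈ Car (w n)`, `w n = wall (x (k+1)) s`; `w k = wall (x (k+1)) s_k` crosses `w n`, so
`s, s_k` commute and `w n = wall (x k) s`. -/
def M3_stmt : Prop := ∀ {Γ : Type} (G : SimpleGraph Γ) (n : ℕ) (x : ℕ → RA G) (w : ℕ → Wall (ra G)),
  Gal (ra G) (n + 1) x w → (∀ k < n, (cw (ra G)).Cross (w k) (w n)) → ∀ k ≤ n, x k ∈ Car (ra G) (w n)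

/-- M4 (uses M3, A3, A5, A14, A15, A16, W1). Gates. PROOF. `g ∈ C` nearest to `x`. Geodesic gallery from `g` to `x`, walls `w 0, ..., w (n-1)`. Claim: every `w k`
separates `C` from `x`. Otherwise take `k` minimal such that some `z ∈ C` is on the side of `x`. If `w i` (`i < k`) does not cross `w k` then the half-space of `w k` containing `x` is
inside the half-space of `w i` containing `x`, which does not meet `C`: contradiction with `z`. So `w k` crosses `w 0, ..., w (k-1)`, so by M3 `g ∈ Car (w k)`, `g' = w k g` is adjacent to `g`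
and nearer to `x`, so `g' ∉ C`; a half-space containing `C` but not `g'` has wall `w k` (A3), so `w k` has `C` on one side, the side of `g`: contradiction. -/
def M4_stmt : Prop := ∀ {Γ : Type} (G : SimpleGraph Γ) (C : Set (RA G)), (cw (ra G)).Conv C → C.Nonempty → ∀ x : RA G,
  ∃ g ∈ C, ∀ w, (cw (ra G)).Sep w x g → ∀ z ∈ C, (cw (ra G)).Sep w x z

/-- M5 (uses M4, W7, M2b, A5). PROOF. `g` the gate of `y`; the walls separating `y` from `g` separate `y` from `C`; if there are more than `k |Γ|` of them W7 gives a nested chain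
of `k+1` half-spaces. -/
def M5_stmt : Prop := ∀ {Γ : Type} [Finite Γ] (G : SimpleGraph Γ) (C : Set (RA G)) (k : ℕ), (cw (ra G)).Conv C → C.Nonempty →
  ∀ y ∈ (cw (ra G)).Thick C k, ∃ z ∈ C, dd (ra G) y z ≤ k * Nat.card Γ

/-- M5b (uses A5, A6, W1). Any Coxeter system. PROOF. `k+1` strictly nested half-spaces containing `y` and not `z` have `k+1` different walls, all separating `y` and `z`. -/
def M5b_stmt : Prop := ∀ {B W : Type} [Group W] {M : CoxeterMatrix B} (cs : CoxeterSystem M W) (C : Set W) (k : ℕ) (y z : W),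
  z ∈ C → dd cs y z ≤ k → y ∈ (cw cs).Thick C k

/-- M6 (uses M4, A3, A14, A15, W1). The corner lemma. PROOF. `y ∈ C`. Among the finite sets `F` of pairwise crossing walls of the form `wall y s` crossing `C` take one with `F.card` maximal
(`Γ` finite); `B` from the hypothesis. Suppose `y ∉ B`; `g` the gate of `y` in `B` (M4), `f' = wall y s` the first wall of a geodesic from `y` to `g`: it separates `y` from every point of `B`,
so it crosses `C` (`B ∩ C ≠ ∅`), `f' ∉ F` (walls of `F` cross `B`), and it crosses every `f ∈ F`, `f = wall y s_f`: the quadrants contain `y`, `y s_f`, and two points of `B` on different sides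
of `f`. So `insert f' F` contradicts maximality. -/
def M6_stmt : Prop := ∀ {Γ : Type} [Finite Γ] (G : SimpleGraph Γ) (C : Set (RA G)) (BB : Set (Set (RA G))),
  (∀ b ∈ BB, (cw (ra G)).Conv b) →
  (∀ F : Finset (Wall (ra G)), (∀ f ∈ F, ∀ f' ∈ F, f ≠ f' → (cw (ra G)).Cross f f') → (∀ f ∈ F, (cw (ra G)).CrS f C) →
    ∃ b ∈ BB, (b ∩ C).Nonempty ∧ ∀ f ∈ F, (cw (ra G)).CrS f b) →
  C ⊆ ⋃₀ BB

/-- M7 (uses A3, A16, A23, M2). The truncated right action on a convex set. PROOF. `π s y = y s` if `y s ∈ Y`, `= y` otherwise: an involution. For `G.Adj s t` it commutes with `π t`: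
`y, y s, y t, y s t`: if `y s, y t ∈ Y` then `y s t ∈ Y` and vice versa (`Y` convex, each of the four is on a geodesic between its two neighbours; a half-space containing `Y` ... A23).
`cs.lift` gives `φ`. `φ g y = y g⁻¹` if `y, y g⁻¹ ∈ Y`: a geodesic from `y` to `y g⁻¹` stays in `Y` (A23). Commutation with `γ` on generators, then by induction. -/
def M7_stmt : Prop := ∀ {Γ : Type} (G : SimpleGraph Γ) (Y : Set (RA G)), (cw (ra G)).Conv Y →
  ∃ φ : RA G →* Equiv.Perm Y,
    (∀ (g : RA G) (y : Y), (y : RA G) * g⁻¹ ∈ Y → ((φ g y : Y) : RA G) = (y : RA G) * g⁻¹) ∧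
    (∀ γ : RA G, (∀ y, γ * y ∈ Y ↔ y ∈ Y) → ∀ (g : RA G) (y y' : Y), (y' : RA G) = γ * (y : RA G) →
      ((φ g y' : Y) : RA G) = γ * ((φ g y : Y) : RA G))

/-- M8 (uses M7). Separability criterion. PROOF. `H` acts on the finite set of orbits `c(K) \ Y` through `φ ∘ c`; `H0` = stabilizer of the orbit of `1`. For `k ∈ K`: `φ (c k) 1 = c k⁻¹`, in the orbit
of `1`. For `f ∈ F ∩ H0`: `φ (c f) 1 = (c f)⁻¹ = c k`, so `f = k⁻¹ ∈ K`. -/
def M8_stmt : Prop := ∀ {Γ H : Type} [Group H] (G : SimpleGraph Γ) (c : H →* RA G) (K : Subgroup H) (Y Φ : Set (RA G))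
  (F : Set H), Function.Injective c → (cw (ra G)).Conv Y → 1 ∈ Y → (∀ k ∈ K, ∀ y, c k * y ∈ Y ↔ y ∈ Y) → Φ.Finite →
  (∀ y ∈ Y, ∃ k ∈ K, ∃ f ∈ Φ, y = c k * f) → (∀ f ∈ F, (c f)⁻¹ ∈ Y) →
  ∃ H0 : Subgroup H, H0.FiniteIndex ∧ K ≤ H0 ∧ ∀ f ∈ F, f ∈ H0 → f ∈ K

/-! ## PART L -/

section L
variable {B W : Type} [Group W] {M : CoxeterMatrix B}

/-- L1 (uses A2, A8, M2). Existence of the developing map. PROOF. A2 with `lab r = simple (lab r)`: for `Res r r'`, `r ≠ r'` the walls cross (A8), so the labels are adjacent (a1), and commute (M2). -/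
def L1_stmt : Prop := ∀ {B W : Type} [Group W] {M : CoxeterMatrix B} (cs : CoxeterSystem M W) (H : Subgroup W) (m : ℕ),
  Deep cs H m → ∃ c, IsDev cs H c

/-- L2. PROOF. Induction on a word of `x`; `wall (h x) i = h • wall x i` has the same label as `wall x i`. -/
def L2_stmt : Prop := ∀ {B W : Type} [Group W] {M : CoxeterMatrix B} (cs : CoxeterSystem M W) (H : Subgroup W)
  (c : W → RA (labG cs H)), IsDev cs H c → ∀ h ∈ H, ∀ x, c (h * x) = c h * c x

/-- L3 (uses A3, A5, A12, A14, A15, A22, M1, M2, W1, W3). The developing map is isometric. PROOF. Geodesic gallery `x k`, walls `w k`; `v k = wall (c (x k)) (lab (w k))` are the walls of the image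
gallery; it suffices that they are pairwise different. Suppose `v i = v j`, `i < j`, `j - i` minimal. For `i < k < j` the wall `v k` is crossed exactly once between `c (x (i+1))` and `c (x j)`, which are
adjacent to `v i` on the same side: by A12 `v k` crosses `v i`, so `lab (w k)`, `lab (w i)` are adjacent (M2). Types: `lab (w i) = lab (w j)`, `w i ≠ w j`; by `Deep.c` some wall `u` is between `w i`
and `w j`; it separates `x (i+1) ∈ Car (w i)` from `x j ∈ Car (w j)` (A22), so `u = w k`, `i < k < j`, disjoint from `w i`. Take `k` minimal in `(i,j)` with `w k` disjoint from `w i`: no wall is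
between `w i` and `w k` (it would be some `w l`, `i < l < k`). `Deep.a2`: labels not adjacent, contradiction. -/
def L3_stmt : Prop := ∀ {B W : Type} [Group W] {M : CoxeterMatrix B} (cs : CoxeterSystem M W) (H : Subgroup W) (m : ℕ)
  (c : W → RA (labG cs H)), Deep cs H m → IsDev cs H c → ∀ x y, dd (ra (labG cs H)) (c x) (c y) = dd cs x y

/-- The map on walls induced by the developing map. -/
structure IsWM (cs : CoxeterSystem M W) (H : Subgroup W) (c : W → RA (labG cs H))
    (w : Wall cs → Wall (ra (labG cs H))) : Prop where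
  car : ∀ r, ∀ x ∈ Car cs r, w r = wall (ra (labG cs H)) (c x) (lab cs H r)
  sep : ∀ r x y, (cw (ra (labG cs H))).Sep (w r) (c x) (c y) ↔ (cw cs).Sep r x y
  inj : Function.Injective w
  all : ∀ t x y, (cw (ra (labG cs H))).Sep t (c x) (c y) → ∃ r, t = w r
  equi : ∀ h ∈ H, ∀ r, w (h • r) = c h • w r

/-- L4 (uses L2, L3, A3, A12, A14, A15, M2, W1). PROOF. `w r = wall (c x) (lab r)` for a chosen `x ∈ Car r`. Another `x' ∈ Car r` on the same side: the walls of a geodesic from `x` to `x'` cross `r` (A12), their labels are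
adjacent to `lab r`, so `(c x)⁻¹ c x'` commutes with `simple (lab r)`. Other side: `x' = x'' s_i`, `x'' = r x'`. `sep`, `all`: the image of a geodesic gallery from `x` to `y` is geodesic (L3) with walls `w (w_k)`. `inj`: for
`r ≠ r'` there are `x, y` separated by both (opposite quadrants); in the image geodesic the walls are different. -/
def L4_stmt : Prop := ∀ {B W : Type} [Group W] {M : CoxeterMatrix B} (cs : CoxeterSystem M W) (H : Subgroup W) (m : ℕ)
  (c : W → RA (labG cs H)), Deep cs H m → IsDev cs H c → ∃ w, IsWM cs H c w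

/-- L5 (uses M2, A5, A22, W1, W3). Crossing, disjointness and separation are preserved. PROOF. `Cross`: points of the four quadrants, `sep`. `Dis r r'` implies `Dis (w r) (w r')`: induction on the number of walls between `r` and
`r'` (finite: they separate two chambers). None: `Deep.a2`, M2 (types). If `u` is between: fewer walls between `r, u` and `u, r'`; `w u` is disjoint from `w r` and `w r'`, and `r, r'` are on different sides: the half-space
of `w r` away from `r'` is on the side of `r` of `w u` etc. `Btw`: by disjointness and carriers (A22). -/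
def L5_stmt : Prop := ∀ {B W : Type} [Group W] {M : CoxeterMatrix B} (cs : CoxeterSystem M W) (H : Subgroup W) (m : ℕ)
  (c : W → RA (labG cs H)) (w : Wall cs → Wall (ra (labG cs H))), Deep cs H m → IsDev cs H c → IsWM cs H c w →
  (∀ r r', (cw (ra (labG cs H))).Cross (w r) (w r') ↔ (cw cs).Cross r r') ∧
  (∀ v r r', (cw (ra (labG cs H))).Btw (w v) (w r) (w r') ↔ (cw cs).Btw v r r')

end L

end Pool.Agent.helper53.DC
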