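import Pool.Agent.helper53.DC.SpecV

set_option autoImplicit false

namespace Pool.Agent.helper53.DC

theorem Z (hH4 : H4_stmt) (hH5b : H5b_stmt) (hH7 : H7_stmt) (hK12 : K12_stmt) (hV8 : V8_stmt)
    (hV9 : V9_stmt) (hD3 : D3_stmt) : Z_stmt := by
  intro B W _ _ M cs δ hyp
  obtain ⟨g0, hg⟩ := hH4 cs δ hyp
  obtain ⟨D, hD⟩ := hH5b cs δ hyp
  obtain ⟨H, hdeep⟩ := hH7 cs δ hyp (5 * g0 + 3) (by omega)
  have hsep := fun w w' hw => hK12 cs δ hyp H _ g0 w w' hdeep hw hg le_rfl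
  obtain ⟨C, hC⟩ := hV8 cs H _ g0 hdeep hg (by omega) hsep
  obtain ⟨a, μ, ha, hμ, hF⟩ := hV9 cs C hC
  exact hD3 cs g0 D a μ hg hD ha hμ hF

theorem final (hZ : Z_stmt) :
    ∀ (k : ℕ) (M : CoxeterMatrix (Fin k)),
      (∃ δ : ℕ, ∀ x y z w : M.Group,
        M.toCoxeterSystem.length (x⁻¹ * z) + M.toCoxeterSystem.length (y⁻¹ * w) ≤
          max (M.toCoxeterSystem.length (x⁻¹ * y) + M.toCoxeterSystem.length (z⁻¹ * w))
              (M.toCoxeterSystem.length (x⁻¹ * w) + M.toCoxeterSystem.length (y⁻¹ * z))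
            + 2 * δ) →
      ∃ (n : ℕ) (ρ : M.Group →* Matrix (Fin (n + 1)) (Fin (n + 1)) ℝ),
        Function.Injective ρ ∧
        (∀ g : M.Group,
          (ρ g).transpose
              * Matrix.diagonal (fun i : Fin (n + 1) => if i = 0 then (-1 : ℝ) else 1)
              * ρ g
            = Matrix.diagonal (fun i : Fin (n + 1) => if i = 0 then (-1 : ℝ) else 1)) ∧
        (∀ g : M.Group, 0 < ρ g 0 0) ∧
        DiscreteTopology (Set.range ρ) := by
  intro k M ⟨δ, hδ⟩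
  exact hZ M.toCoxeterSystem δ hδ

end Pool.Agent.helper53.DC
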