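import Pool.Agent.helper11.DC.A12
import Pool.Agent.helper16.DC.H3
import Pool.Agent.helper16.DC.K12
import Pool.Agent.helper16.DC.M5
import Pool.Agent.helper16.DC.V8
import Pool.Agent.helper19.DC.A13
import Pool.Agent.helper19.DC.A16
import Pool.Agent.helper19.DC.I6
import Pool.Agent.helper19.DC.L4
import Pool.Agent.helper19.DC.V3
import Pool.Agent.helper19.DC.V5
import Pool.Agent.helper24.DC.H3a
import Pool.Agent.helper24.DC.K1
import Pool.Agent.helper24.DC.K2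
import Pool.Agent.helper24.DC.K3
import Pool.Agent.helper25.DC.V4
import Pool.Agent.helper31.DC.D2
import Pool.Agent.helper31.DC.V6
import Pool.Agent.helper32.DC.H3b
import Pool.Agent.helper33.DC.I5
import Pool.Agent.helper41.DC.A11
import Pool.Agent.helper41.DC.A2
import Pool.Agent.helper41.DC.K11
import Pool.Agent.helper41.DC.R3
import Pool.Agent.helper41.DC.V6d
import Pool.Agent.helper41.DC.W4
import Pool.Agent.helper43.DC.A3
import Pool.Agent.helper43.DC.H2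
import Pool.Agent.helper43.DC.H5
import Pool.Agent.helper46.DC.I1
import Pool.Agent.helper52.DC.A4c
import Pool.Agent.helper53.DC.FA7
import Pool.Agent.helper53.DC.FD3
import Pool.Agent.helper53.DC.FH6a
import Pool.Agent.helper53.DC.SpecA
import Pool.Agent.helper53.DC.SpecH
import Pool.Agent.helper53.DC.SpecI
import Pool.Agent.helper53.DC.SpecK
import Pool.Agent.helper53.DC.SpecM
import Pool.Agent.helper53.DC.SpecR
import Pool.Agent.helper53.DC.SpecV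
import Pool.Agent.helper53.DC.Z
import Pool.Agent.helper63.DC.D1
import Pool.Agent.helper63.DC.K9
import Pool.Agent.helper63.DC.L1
import Pool.Agent.helper63.DC.L2
import Pool.Agent.helper63.DC.L3
import Pool.Agent.helper63.DC.M1
import Pool.Agent.helper63.DC.M2
import Pool.Agent.helper64.DC.A20
import Pool.Agent.helper64.DC.A4
import Pool.Agent.helper64.DC.A5
import Pool.Agent.helper64.DC.I4
import Pool.Agent.helper64.DC.I8
import Pool.Agent.helper65.DC.V2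
import Pool.Agent.helper65.DC.V7
import Pool.Agent.helper66.DC.A6
import Pool.Agent.helper66.DC.W7
import Pool.Agent.helper7.DC.A18
import Pool.Agent.helper7.DC.I2
import Pool.Agent.helper70.DC.R6
import Pool.Agent.helper70.DC.R7
import Pool.Agent.helper71.DC.K10
import Pool.Agent.helper71.DC.K4
import Pool.Agent.helper71.DC.V1
import Pool.Agent.helper71.DC.V4b
import Pool.Agent.helper77.DC.A15
import Pool.Agent.helper77.DC.A8
import Pool.Agent.helper77.DC.H4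
import Pool.Agent.helper77.DC.K6
import Pool.Agent.helper77.DC.M8
import Pool.Agent.helper78.DC.A21
import Pool.Agent.helper78.DC.M4
import Pool.Agent.helper78.DC.M7
import Pool.Agent.helper78.DC.R2
import Pool.Agent.helper78.DC.R5
import Pool.Agent.helper78.DC.R9
import Pool.Agent.helper78.DC.W6
import Pool.Agent.helper79.DC.K7
import Pool.Agent.helper79.DC.R4
import Pool.Agent.helper79.DC.W3
import Pool.Agent.helper87.DC.I7
import Pool.Agent.helper87.DC.V9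
import Pool.Agent.helper89.DC.K5
import Pool.Agent.helper89.DC.V6a
import Pool.Agent.helper89.DC.V6c
import Pool.Agent.helper90.DC.H4a
import Pool.Agent.helper91.DC.A22
import Pool.Agent.helper91.DC.A9
import Pool.Agent.helper92.DC.H6
import Pool.Agent.helper97.DC.A24
import Pool.Agent.helper97.DC.A4b
import Pool.Agent.helper97.DC.K8
import Pool.Agent.helper97.DC.R8
import Pool.Agent.helper97.DC.V6b
import Pool.Agent.helper97.DC.W5
import Pool.Agent.helper98.DC.A1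
import Pool.Agent.helper98.DC.R1
import Pool.Agent.helper99.DC.A10
import Pool.Agent.helper99.DC.A14
import Pool.Agent.helper99.DC.A19
import Pool.Agent.helper99.DC.H7
import Pool.Agent.helper99.DC.L5
import Pool.Agent.helper99.DC.M6
import Pool.Agent.helper99.DC.W1

/-!
# Project dc: assembly (generated)
-/

namespace Pool.Agent.helper53.DC.Asm

theorem a53_H1 : Pool.Agent.helper53.DC.H1_stmt :=
  Pool.Agent.helper53.DC.H1 

theorem a53_A14 : Pool.Agent.helper53.DC.A14_stmt :=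
  Pool.Agent.helper99.DC.A14 

theorem a53_A1 : Pool.Agent.helper53.DC.A1_stmt :=
  Pool.Agent.helper53.DC.A1 

theorem a53_A2 : Pool.Agent.helper53.DC.A2_stmt :=
  Pool.Agent.helper41.DC.A2 a53_A1

theorem a53_A3 : Pool.Agent.helper53.DC.A3_stmt :=
  Pool.Agent.helper53.DC.A3 a53_A2

theorem a53_A5 : Pool.Agent.helper53.DC.A5_stmt :=
  Pool.Agent.helper64.DC.A5 a53_A3

theorem a53_A15 : Pool.Agent.helper53.DC.A15_stmt :=
  Pool.Agent.helper77.DC.A15 a53_A3 a53_A5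

theorem a53_A11 : Pool.Agent.helper53.DC.A11_stmt :=
  Pool.Agent.helper41.DC.A11 a53_A14 a53_A15

theorem a53_H2 : Pool.Agent.helper53.DC.H2_stmt :=
  Pool.Agent.helper53.DC.H2 a53_H1 a53_A11

theorem a53_A6 : Pool.Agent.helper53.DC.A6_stmt :=
  Pool.Agent.helper66.DC.A6 a53_A3

theorem a53_A18 : Pool.Agent.helper53.DC.A18_stmt :=
  Pool.Agent.helper7.DC.A18 a53_A6

theorem a53_A4 : Pool.Agent.helper53.DC.A4_stmt :=
  Pool.Agent.helper64.DC.A4 a53_A3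

theorem a53_A4b : Pool.Agent.helper53.DC.A4b_stmt :=
  Pool.Agent.helper97.DC.A4b a53_A4

theorem a53_H3a : Pool.Agent.helper53.DC.H3a_stmt :=
  Pool.Agent.helper24.DC.H3a a53_A18 a53_A11 a53_A5 a53_A4b

theorem a53_H3b : Pool.Agent.helper53.DC.H3b_stmt :=
  Pool.Agent.helper53.DC.H3b 

theorem a53_H3 : Pool.Agent.helper53.DC.H3_stmt :=
  Pool.Agent.helper16.DC.H3 a53_H1 a53_H3a a53_H3b

theorem a53_H4a : Pool.Agent.helper53.DC.H4a_stmt :=
  Pool.Agent.helper90.DC.H4a a53_H1 a53_H2 a53_H3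

theorem a53_A7 : Pool.Agent.helper53.DC.A7_stmt :=
  Pool.Agent.helper53.DC.F43.A7 a53_A2 a53_A14 a53_A15

theorem a53_A9 : Pool.Agent.helper53.DC.A9_stmt :=
  Pool.Agent.helper91.DC.A9 

theorem a53_A19b : Pool.Agent.helper53.DC.A19b_stmt :=
  Pool.Agent.helper99.DC.A19b 

theorem a53_H4 : Pool.Agent.helper53.DC.H4_stmt :=
  Pool.Agent.helper77.DC.H4 a53_H1 a53_H4a a53_A7 a53_A9 a53_A19b

theorem a53_H5 : Pool.Agent.helper53.DC.H5_stmt :=
  Pool.Agent.helper53.DC.H5 a53_H1 a53_H2 a53_A7 a53_A9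

theorem a53_H5b : Pool.Agent.helper53.DC.H5b_stmt :=
  Pool.Agent.helper53.DC.H5b a53_H5 a53_A19b

theorem a53_H6a : Pool.Agent.helper53.DC.H6a_stmt :=
  Pool.Agent.helper53.DC.F43.H6a a53_H1 a53_H2 a53_A7 a53_A9 a53_A14 a53_A15 a53_A19b

theorem a53_W1 : Pool.Agent.helper53.DC.W1_stmt :=
  Pool.Agent.helper99.DC.W1 

theorem a53_W3 : Pool.Agent.helper53.DC.W3_stmt :=
  Pool.Agent.helper53.DC.W3 a53_W1

theorem a53_W4 : Pool.Agent.helper53.DC.W4_stmt :=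
  Pool.Agent.helper41.DC.W4 a53_W3

theorem a53_A13 : Pool.Agent.helper53.DC.A13_stmt :=
  Pool.Agent.helper19.DC.A13 a53_A3 a53_A14 a53_A15

theorem a53_A22 : Pool.Agent.helper53.DC.A22_stmt :=
  Pool.Agent.helper91.DC.A22 a53_A3 a53_A6 a53_A13 a53_W1

theorem a53_H6 : Pool.Agent.helper53.DC.H6_stmt :=
  Pool.Agent.helper92.DC.H6 a53_H6a a53_H5b a53_W4 a53_A5 a53_A22 a53_A3 a53_A6 a53_W1

theorem a53_R1 : Pool.Agent.helper53.DC.R1_stmt :=
  Pool.Agent.helper53.DC.R1 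

theorem a53_R2 : Pool.Agent.helper53.DC.R2_stmt :=
  Pool.Agent.helper78.DC.R2 

theorem a53_R3 : Pool.Agent.helper53.DC.R3_stmt :=
  Pool.Agent.helper41.DC.R3 

theorem a53_R4 : Pool.Agent.helper53.DC.R4_stmt :=
  Pool.Agent.helper53.DC.R4 a53_R2 a53_R3

theorem a53_R5 : Pool.Agent.helper53.DC.R5_stmt :=
  Pool.Agent.helper78.DC.R5 a53_R4

theorem a53_R6 : Pool.Agent.helper53.DC.R6_stmt :=
  Pool.Agent.helper70.DC.R6 

theorem a53_R7 : Pool.Agent.helper53.DC.R7_stmt :=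
  Pool.Agent.helper70.DC.R7 

theorem a53_R8 : Pool.Agent.helper53.DC.R8_stmt :=
  Pool.Agent.helper97.DC.R8 a53_R1 a53_R5 a53_R6 a53_R7

theorem a53_R9 : Pool.Agent.helper53.DC.R9_stmt :=
  Pool.Agent.helper78.DC.R9 a53_R8

theorem a53_A4c : Pool.Agent.helper53.DC.A4c_stmt :=
  Pool.Agent.helper53.DC.A4c a53_A4b

theorem a53_A10 : Pool.Agent.helper53.DC.A10_stmt :=
  Pool.Agent.helper99.DC.A10 

theorem a53_A17 : Pool.Agent.helper53.DC.A17_stmt :=
  Pool.Agent.helper7.DC.A17 a53_A18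

theorem a53_A19 : Pool.Agent.helper53.DC.A19_stmt :=
  Pool.Agent.helper99.DC.A19 

theorem a53_A21 : Pool.Agent.helper53.DC.A21_stmt :=
  Pool.Agent.helper78.DC.A21 

theorem a53_H7 : Pool.Agent.helper53.DC.H7_stmt :=
  Pool.Agent.helper99.DC.H7 a53_H6 a53_R9 a53_A4c a53_A6 a53_A7 a53_A10 a53_A17 a53_A19 a53_A21 a53_W1

theorem a53_K7 : Pool.Agent.helper53.DC.K7_stmt :=
  Pool.Agent.helper53.DC.K7 a53_A4c a53_A6 a53_A22 a53_W1

theorem a53_W2 : Pool.Agent.helper53.DC.W2_stmt :=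
  Pool.Agent.helper53.DC.W2 a53_W1

theorem a53_K1 : Pool.Agent.helper53.DC.K1_stmt :=
  Pool.Agent.helper24.DC.K1 a53_W1 a53_W2 a53_W3

theorem a53_K2 : Pool.Agent.helper53.DC.K2_stmt :=
  Pool.Agent.helper24.DC.K2 a53_K1 a53_W1 a53_W3 a53_W4

theorem a53_K3 : Pool.Agent.helper53.DC.K3_stmt :=
  Pool.Agent.helper24.DC.K3 a53_K1 a53_W1 a53_W2 a53_W3

theorem a53_K4 : Pool.Agent.helper53.DC.K4_stmt :=
  Pool.Agent.helper71.DC.K4 

theorem a53_K5 : Pool.Agent.helper53.DC.K5_stmt :=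
  Pool.Agent.helper89.DC.K5 a53_A4c

theorem a53_K6 : Pool.Agent.helper53.DC.K6_stmt :=
  Pool.Agent.helper77.DC.K6 a53_K1 a53_K5 a53_A6 a53_W3

theorem a53_K8 : Pool.Agent.helper53.DC.K8_stmt :=
  Pool.Agent.helper97.DC.K8 a53_K2 a53_K3 a53_K4 a53_K5 a53_K6 a53_A6 a53_W1 a53_W3

theorem a53_K9 : Pool.Agent.helper53.DC.K9_stmt :=
  Pool.Agent.helper63.DC.K9 a53_H1 a53_H2 a53_H5 a53_H6 a53_A7 a53_A9 a53_A11

theorem a53_A8 : Pool.Agent.helper53.DC.A8_stmt :=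
  Pool.Agent.helper77.DC.A8 a53_A3

theorem a53_M1 : Pool.Agent.helper53.DC.M1_stmt :=
  Pool.Agent.helper63.DC.M1 

theorem a53_M2 : Pool.Agent.helper53.DC.M2_stmt :=
  Pool.Agent.helper63.DC.M2 a53_A7 a53_A8 a53_M1

theorem a53_M3 : Pool.Agent.helper53.DC.M3_stmt :=
  Pool.Agent.helper63.DC.M3 a53_M2

theorem a53_M4 : Pool.Agent.helper53.DC.M4_stmt :=
  Pool.Agent.helper78.DC.M4 a53_M3 a53_A3 a53_A14 a53_A15

theorem a53_W7 : Pool.Agent.helper53.DC.W7_stmt :=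
  Pool.Agent.helper66.DC.W7 

theorem a53_M2b : Pool.Agent.helper53.DC.M2b_stmt :=
  Pool.Agent.helper63.DC.M2b a53_M1 a53_M2

theorem a53_M5 : Pool.Agent.helper53.DC.M5_stmt :=
  Pool.Agent.helper16.DC.M5 a53_M4 a53_W7 a53_M2b a53_A5 a53_A6

theorem a53_M5b : Pool.Agent.helper53.DC.M5b_stmt :=
  Pool.Agent.helper16.DC.M5b a53_A5

theorem a53_M6 : Pool.Agent.helper53.DC.M6_stmt :=
  Pool.Agent.helper99.DC.M6 a53_M4 a53_A3 a53_A14 a53_A15

theorem a53_L5 : Pool.Agent.helper53.DC.L5_stmt :=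
  Pool.Agent.helper99.DC.L5 a53_M2 a53_A5 a53_A6 a53_A22 a53_W1 a53_W3

theorem a53_A12 : Pool.Agent.helper53.DC.A12_stmt :=
  Pool.Agent.helper11.DC.A12 a53_A3

theorem a53_L3 : Pool.Agent.helper53.DC.L3_stmt :=
  Pool.Agent.helper63.DC.L3 a53_A3 a53_A5 a53_A6 a53_A12 a53_A14 a53_A15 a53_A22 a53_M1 a53_M2 a53_W3

theorem a53_A20 : Pool.Agent.helper53.DC.A20_stmt :=
  Pool.Agent.helper64.DC.A20 

theorem a53_W5 : Pool.Agent.helper53.DC.W5_stmt :=
  Pool.Agent.helper97.DC.W5 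

theorem a53_W6 : Pool.Agent.helper53.DC.W6_stmt :=
  Pool.Agent.helper78.DC.W6 

theorem a53_K10 : Pool.Agent.helper53.DC.K10_stmt :=
  Pool.Agent.helper71.DC.K10 a53_K7 a53_K8 a53_K9 a53_M5 a53_M5b a53_M6 a53_L5 a53_L3 a53_A3 a53_A5 a53_A6 a53_A11 a53_A20 a53_W5 a53_W6

theorem a53_K11 : Pool.Agent.helper53.DC.K11_stmt :=
  Pool.Agent.helper41.DC.K11 

theorem a53_A16 : Pool.Agent.helper53.DC.A16_stmt :=
  Pool.Agent.helper19.DC.A16 a53_A5

theorem a53_A23 : Pool.Agent.helper53.DC.A23_stmt :=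
  Pool.Agent.helper19.DC.A23 a53_A16

theorem a53_M7 : Pool.Agent.helper53.DC.M7_stmt :=
  Pool.Agent.helper78.DC.M7 a53_A3 a53_A23 a53_M1 a53_M2

theorem a53_M8 : Pool.Agent.helper53.DC.M8_stmt :=
  Pool.Agent.helper77.DC.M8 a53_M7

theorem a53_L1 : Pool.Agent.helper53.DC.L1_stmt :=
  Pool.Agent.helper63.DC.L1 a53_A2 a53_A8 a53_M2

theorem a53_L2 : Pool.Agent.helper53.DC.L2_stmt :=
  Pool.Agent.helper63.DC.L2 

theorem a53_L4 : Pool.Agent.helper53.DC.L4_stmt :=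
  Pool.Agent.helper19.DC.L4 a53_L2 a53_L3 a53_A3 a53_A6 a53_A12 a53_A14 a53_A15 a53_M2

theorem a53_K12 : Pool.Agent.helper53.DC.K12_stmt :=
  Pool.Agent.helper16.DC.K12 a53_K10 a53_K11 a53_M5 a53_M5b a53_M8 a53_L1 a53_L2 a53_L3 a53_L4 a53_A19 a53_A20 a53_W5 a53_W6 a53_A4b a53_A6 a53_W1

theorem a53_V6a : Pool.Agent.helper53.DC.V6a_stmt :=
  Pool.Agent.helper89.DC.V6a a53_A14 a53_A15 a53_A19

theorem a53_V6b : Pool.Agent.helper53.DC.V6b_stmt :=
  Pool.Agent.helper97.DC.V6b a53_V6a a53_R9 a53_A4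

theorem a53_V6c : Pool.Agent.helper53.DC.V6c_stmt :=
  Pool.Agent.helper89.DC.V6c 

theorem a53_V1 : Pool.Agent.helper53.DC.V1_stmt :=
  Pool.Agent.helper71.DC.V1 

theorem a53_V2 : Pool.Agent.helper53.DC.V2_stmt :=
  Pool.Agent.helper65.DC.V2 a53_V1

theorem a53_V6d : Pool.Agent.helper53.DC.V6d_stmt :=
  Pool.Agent.helper41.DC.V6d a53_V6b a53_V6c a53_K6 a53_V2

theorem a53_V3 : Pool.Agent.helper53.DC.V3_stmt :=
  Pool.Agent.helper19.DC.V3 

theorem a53_V4 : Pool.Agent.helper53.DC.V4_stmt :=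
  Pool.Agent.helper53.DC.V4 

theorem a53_V4b : Pool.Agent.helper53.DC.V4b_stmt :=
  Pool.Agent.helper71.DC.V4b 

theorem a53_V5 : Pool.Agent.helper53.DC.V5_stmt :=
  Pool.Agent.helper19.DC.V5 

theorem a53_V6 : Pool.Agent.helper53.DC.V6_stmt :=
  Pool.Agent.helper53.DC.V6 a53_V6a a53_V6d a53_V3 a53_V4 a53_V4b a53_V5 a53_A4

theorem a53_V7 : Pool.Agent.helper53.DC.V7_stmt :=
  Pool.Agent.helper65.DC.V7 a53_A7 a53_A21 a53_A4c

theorem a53_A24 : Pool.Agent.helper53.DC.A24_stmt :=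
  Pool.Agent.helper97.DC.A24 a53_A3 a53_A7 a53_A9 a53_A11

theorem a53_V8 : Pool.Agent.helper53.DC.V8_stmt :=
  Pool.Agent.helper16.DC.V8 a53_V6 a53_V7 a53_K6 a53_A24 a53_A4c a53_A6 a53_W1

theorem a53_V9 : Pool.Agent.helper53.DC.V9_stmt :=
  Pool.Agent.helper87.DC.V9 a53_A4 a53_A5 a53_A19 a53_A20 a53_A24 a53_R9

theorem a53_I1 : Pool.Agent.helper53.DC.I1_stmt :=
  Pool.Agent.helper53.DC.I1 

theorem a53_I2 : Pool.Agent.helper53.DC.I2_stmt :=
  Pool.Agent.helper7.DC.I2 a53_I1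

theorem a53_I3 : Pool.Agent.helper53.DC.I3_stmt :=
  Pool.Agent.helper7.DC.I3 

theorem a53_I4 : Pool.Agent.helper53.DC.I4_stmt :=
  Pool.Agent.helper64.DC.I4 

theorem a53_I5 : Pool.Agent.helper53.DC.I5_stmt :=
  Pool.Agent.helper33.DC.I5 

theorem a53_I6 : Pool.Agent.helper53.DC.I6_stmt :=
  Pool.Agent.helper19.DC.I6 a53_I1 a53_I2 a53_I3 a53_I4 a53_I5

theorem a53_I7 : Pool.Agent.helper53.DC.I7_stmt :=
  Pool.Agent.helper87.DC.I7 a53_A2 a53_A8

theorem a53_I8 : Pool.Agent.helper53.DC.I8_stmt :=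
  Pool.Agent.helper64.DC.I8 

theorem a53_D1 : Pool.Agent.helper53.DC.D1_stmt :=
  Pool.Agent.helper63.DC.D1 a53_A15

theorem a53_D2 : Pool.Agent.helper53.DC.D2_stmt :=
  Pool.Agent.helper53.DC.D2 a53_D1 a53_A15

theorem a53_D3 : Pool.Agent.helper53.DC.D3_stmt :=
  Pool.Agent.helper53.DC.F43.D3 a53_I6 a53_I7 a53_I8 a53_D2 a53_A6 a53_A14 a53_A15 a53_W1 a53_A19

theorem a53_Z : Pool.Agent.helper53.DC.Z_stmt :=
  Pool.Agent.helper53.DC.Z a53_H4 a53_H5b a53_H7 a53_K12 a53_V8 a53_V9 a53_D3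

end Pool.Agent.helper53.DC.Asm
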