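import Mathlib

/-! Definitions for the discrete embedding of hyperbolic Coxeter groups (MP_a96873_gt). -/

set_option autoImplicit false

namespace Pool.Agent.helper53.DC

/-! ## Abstract wall systems -/

/-- An abstract wall system: each wall `w` cuts the set `X` of chambers in `H w` and its complement. -/
structure WS (X Wl : Type) where
  H : Wl → Set X

namespace WS

variable {X Wl : Type} (S : WS X Wl)

/-- The axioms: both sides non-empty, a wall is determined by its sides. -/
structure Good : Prop where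
  ne : ∀ w, (S.H w).Nonempty
  nec : ∀ w, (S.H w)ᶜ.Nonempty
  inj : ∀ w w', S.H w = S.H w' → w = w'
  injc : ∀ w w', S.H w ≠ (S.H w')ᶜ

/-- The two half-spaces of a wall. -/
def hs (w : Wl) (b : Bool) : Set X := {x | x ∈ S.H w ↔ b = true}

/-- Two walls cross: all four quadrants are non-empty. -/
def Cross (w w' : Wl) : Prop := ∀ b b' : Bool, (S.hs w b ∩ S.hs w' b').Nonempty

/-- Two walls are disjoint: different and not crossing. -/
def Dis (w w' : Wl) : Prop := w ≠ w' ∧ ¬ S.Cross w w'

/-- The wall `u` lies on the side `b` of the wall `v`. -/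
def On (u v : Wl) (b : Bool) : Prop := u ≠ v ∧ ∃ b', S.hs u b' ⊆ S.hs v b

/-- The wall `v` separates the walls `u` and `u'`. -/
def Btw (v u u' : Wl) : Prop := ∃ b, S.On u v b ∧ S.On u' v (!b)

/-- The wall `w` separates the chambers `x` and `y`. -/
def Sep (w : Wl) (x y : X) : Prop := ¬ (x ∈ S.H w ↔ y ∈ S.H w)

/-- `v 0, ..., v (m-1)` is an ordered chain of walls separating `u` from `u'`. -/
def IsCh (m : ℕ) (u u' : Wl) (v : ℕ → Wl) : Prop :=
  (∀ i < m, S.Btw (v i) u u') ∧
    ∀ i j, i < j → j < m → S.Btw (v i) u (v j) ∧ S.Btw (v j) (v i) u'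

/-- `u` and `u'` are separated by an `m`-chain. -/
def SepCh (m : ℕ) (u u' : Wl) : Prop := ∃ v : ℕ → Wl, S.IsCh m u u' v

/-- Convex sets: intersections of half-spaces. -/
def Conv (C : Set X) : Prop := ∀ x, x ∉ C → ∃ w b, C ⊆ S.hs w b ∧ x ∉ S.hs w b

/-- The convex hull. -/
def hull (E : Set X) : Set X := {x | ∀ w b, E ⊆ S.hs w b → x ∈ S.hs w b}

/-- The wall `w` crosses the set `C`. -/
def CrS (w : Wl) (C : Set X) : Prop := ∃ x ∈ C, ∃ y ∈ C, S.Sep w x y

/-- The thickening `C^{(k)}`: chambers not separated from `C` by `k+1` nested half-spaces. -/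
def Thick (C : Set X) (k : ℕ) : Set X :=
  {x | ¬ ∃ (v : ℕ → Wl) (b : ℕ → Bool), (∀ i ≤ k, x ∈ S.hs (v i) (b i)) ∧
      (∀ i ≤ k, Disjoint (S.hs (v i) (b i)) C) ∧
      ∀ i < k, S.hs (v (i + 1)) (b (i + 1)) ⊂ S.hs (v i) (b i)}

end WS

/-! ## Coxeter groups -/

section Cox

variable {B W : Type} [Group W] {M : CoxeterMatrix B} (cs : CoxeterSystem M W)

/-- The word metric. -/
noncomputable def dd (x y : W) : ℕ := cs.length (x⁻¹ * y)

/-- The walls of a Coxeter system are its reflections. -/
def Wall : Type := {r : W // cs.IsReflection r}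

/-- `W` acts on walls by conjugation. -/
instance instMulActionWall : MulAction W (Wall cs) where
  smul g r := ⟨g * r.1 * g⁻¹, r.2.conj g⟩
  one_smul r := Subtype.ext (by show 1 * r.1 * (1 : W)⁻¹ = r.1; simp)
  mul_smul g h r := Subtype.ext (by
    show g * h * r.1 * (g * h)⁻¹ = g * (h * r.1 * h⁻¹) * g⁻¹
    simp [mul_assoc])

theorem smul_wall_val (g : W) (r : Wall cs) : (g • r).1 = g * r.1 * g⁻¹ := rfl

/-- The wall between `x` and `x * s i`. -/
def wall (x : W) (i : B) : Wall cs := ⟨x * cs.simple i * x⁻¹, ⟨x, i, rfl⟩⟩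

theorem wall_val (x : W) (i : B) : (wall cs x i).1 = x * cs.simple i * x⁻¹ := rfl

/-- The wall system of a Coxeter system. -/
def cw : WS W (Wall cs) := ⟨fun r => {x | cs.length (r.1 * x) < cs.length x}⟩

theorem mem_cw (r : Wall cs) (x : W) : x ∈ (cw cs).H r ↔ cs.length (r.1 * x) < cs.length x :=
  Iff.rfl

/-- `D_r(x) = d(x, r x)`. -/
noncomputable def DD (r : Wall cs) (x : W) : ℕ := dd cs x (r.1 * x)

/-- The carrier of a wall: the chambers adjacent to it. -/
def Car (r : Wall cs) : Set W := {x | ∃ i, r.1 * x = x * cs.simple i}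

/-- Geodesic galleries: `x 0, ..., x n` with walls `w 0, ..., w (n-1)`, the wall `w k` is between
`x k` and `x (k+1)`. -/
structure Gal (n : ℕ) (x : ℕ → W) (w : ℕ → Wall cs) : Prop where
  step : ∀ k < n, x (k + 1) = (w k).1 * x k
  adj : ∀ k < n, ∃ i, x (k + 1) = x k * cs.simple i
  geo : dd cs (x 0) (x n) = n

/-- The four-point condition of the frozen statement. -/
def Hyp (δ : ℕ) : Prop := ∀ x y z w : W,
  dd cs x z + dd cs y w ≤ max (dd cs x y + dd cs z w) (dd cs x w + dd cs y z) + 2 * δ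

/-- Two walls are `R`-visible from each other: some geodesic of length `≤ R` crosses both. -/
def Vis (R : ℕ) (r r' : Wall cs) : Prop :=
  ∃ x y, dd cs x y ≤ R ∧ (cw cs).Sep r x y ∧ (cw cs).Sep r' x y

theorem dd_self (x : W) : dd cs x x = 0 := by simp [dd]

theorem dd_comm (x y : W) : dd cs x y = dd cs y x := by
  unfold dd
  rw [← cs.length_inv, mul_inv_rev, inv_inv]

theorem dd_tri (x y z : W) : dd cs x z ≤ dd cs x y + dd cs y z := by
  unfold dd
  have h := cs.length_mul_le (x⁻¹ * y) (y⁻¹ * z)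
  rwa [show x⁻¹ * y * (y⁻¹ * z) = x⁻¹ * z by group] at h

theorem dd_left (g x y : W) : dd cs (g * x) (g * y) = dd cs x y := by
  unfold dd
  rw [show (g * x)⁻¹ * (g * y) = x⁻¹ * y by group]

theorem dd_eq_zero {x y : W} : dd cs x y = 0 ↔ x = y := by
  unfold dd
  rw [cs.length_eq_zero_iff, inv_mul_eq_one]

theorem dd_one_left (x : W) : dd cs 1 x = cs.length x := by simp [dd]

theorem dd_simple (x : W) (i : B) : dd cs x (x * cs.simple i) = 1 := by
  unfold dd
  rw [show x⁻¹ * (x * cs.simple i) = cs.simple i by group, cs.length_simple]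

theorem dd_eq_one {x y : W} : dd cs x y = 1 ↔ ∃ i, y = x * cs.simple i := by
  unfold dd
  rw [cs.length_eq_one_iff]
  constructor
  · rintro ⟨i, hi⟩
    exact ⟨i, by rw [← hi]; group⟩
  · rintro ⟨i, rfl⟩
    exact ⟨i, by group⟩

theorem DD_smul (g : W) (r : Wall cs) (x : W) : DD cs (g • r) (g * x) = DD cs r x := by
  unfold DD
  rw [smul_wall_val, show g * r.1 * g⁻¹ * (g * x) = g * (r.1 * x) by group, dd_left]

theorem mem_Car (r : Wall cs) (x : W) : x ∈ Car cs r ↔ DD cs r x = 1 := by
  unfold DD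
  rw [dd_eq_one]
  rfl

/-- A point at a given distance on some geodesic from `x` to `y`. -/
theorem exists_geo (x y : W) (t : ℕ) (ht : t ≤ dd cs x y) :
    ∃ z, dd cs x z = t ∧ dd cs z y + t = dd cs x y := by
  obtain ⟨ω, hω, he⟩ := cs.exists_isReduced (x⁻¹ * y)
  have hl : ω.length = dd cs x y := by
    unfold dd; rw [he]; exact hω.eq.symm
  refine ⟨x * cs.wordProd (ω.take t), ?_, ?_⟩
  · unfold dd
    rw [show x⁻¹ * (x * cs.wordProd (ω.take t)) = cs.wordProd (ω.take t) by group,
      (hω.take t).eq, List.length_take, hl]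
    omega
  · have h1 : (x * cs.wordProd (ω.take t))⁻¹ * y = cs.wordProd (ω.drop t) := by
      have h2 : cs.wordProd (ω.take t) * cs.wordProd (ω.drop t) = x⁻¹ * y := by
        rw [← cs.wordProd_append, List.take_append_drop, ← he]
      rw [mul_inv_rev, mul_assoc, ← h2]; group
    have h3 : dd cs (x * cs.wordProd (ω.take t)) y = ω.length - t := by
      unfold dd; rw [h1, (hω.drop t).eq, List.length_drop]
    rw [h3, hl]; omega

theorem DD_le (r : Wall cs) (x y : W) : DD cs r x ≤ DD cs r y + 2 * dd cs x y := by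
  unfold DD
  have h1 := dd_tri cs x y (r.1 * x)
  have h2 := dd_tri cs y (r.1 * y) (r.1 * x)
  rw [dd_left] at h2
  rw [dd_comm cs y x] at h2
  omega

end Cox

/-! ## Right-angled Coxeter groups -/

open Classical in
/-- The right-angled Coxeter matrix of a graph. -/
noncomputable def raM {Γ : Type} (G : SimpleGraph Γ) : CoxeterMatrix Γ where
  M := Matrix.of fun s t => if s = t then 1 else if G.Adj s t then 2 else 0
  isSymm := by
    ext s t
    simp only [Matrix.transpose_apply, Matrix.of_apply]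
    by_cases h : s = t
    · simp [h]
    · rw [if_neg h, if_neg (Ne.symm h)]
      by_cases h2 : G.Adj s t
      · rw [if_pos h2, if_pos h2.symm]
      · rw [if_neg h2, if_neg (fun h3 => h2 h3.symm)]
  diagonal := by intro s; simp
  off_diagonal := by
    intro s t h
    simp only [Matrix.of_apply]
    rw [if_neg h]
    split_ifs <;> norm_num

/-- The right-angled Coxeter group of a graph. -/
abbrev RA {Γ : Type} (G : SimpleGraph Γ) : Type := (raM G).Group

/-- Its Coxeter system. -/
noncomputable abbrev ra {Γ : Type} (G : SimpleGraph Γ) : CoxeterSystem (raM G) (RA G) :=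
  (raM G).toCoxeterSystem

section Lab

variable {B W : Type} [Group W] {M : CoxeterMatrix B} (cs : CoxeterSystem M W)

/-- Labels of walls: orbits of the subgroup `H`. -/
def Lab (H : Subgroup W) : Type := MulAction.orbitRel.Quotient H (Wall cs)

/-- The label of a wall. -/
def lab (H : Subgroup W) (r : Wall cs) : Lab cs H := Quotient.mk _ r

theorem lab_eq {H : Subgroup W} {r r' : Wall cs} :
    lab cs H r = lab cs H r' ↔ ∃ h ∈ H, h • r = r' := by
  constructor
  · intro h0
    have h1 : (MulAction.orbitRel H (Wall cs)) r r' := Quotient.exact h0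
    rw [MulAction.orbitRel_apply, MulAction.mem_orbit_iff] at h1
    obtain ⟨⟨h, hh⟩, he⟩ := h1
    refine ⟨h⁻¹, H.inv_mem hh, ?_⟩
    rw [← he]
    show h⁻¹ • (h • r') = r'
    rw [inv_smul_smul]
  · rintro ⟨h, hh, he⟩
    refine Quotient.sound (?_ : (MulAction.orbitRel H (Wall cs)) r r')
    rw [MulAction.orbitRel_apply, MulAction.mem_orbit_iff]
    refine ⟨⟨h⁻¹, H.inv_mem hh⟩, ?_⟩
    rw [← he]
    show h⁻¹ • (h • r) = r
    rw [inv_smul_smul]

/-- The graph of labels: two labels are adjacent if they have crossing representatives. -/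
def labG (H : Subgroup W) : SimpleGraph (Lab cs H) where
  Adj a b := a ≠ b ∧ ∃ r r', lab cs H r = a ∧ lab cs H r' = b ∧ (cw cs).Cross r r'
  symm := ⟨by
    rintro a b ⟨hne, r, r', h1, h2, h3⟩
    exact ⟨hne.symm, r', r, h2, h1, fun b b' => by rw [Set.inter_comm]; exact h3 b' b⟩⟩
  loopless := ⟨fun a h => h.1 rfl⟩

/-- The subgroup `H` is deep (with parameter `m`). -/
structure Deep (H : Subgroup W) (m : ℕ) : Prop where
  normal : H.Normal
  fin : H.FiniteIndex
  pos : 0 < m
  a1 : ∀ r r' : Wall cs, (cw cs).Cross r r' → lab cs H r ≠ lab cs H r'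
  a2 : ∀ r r' : Wall cs, (cw cs).Dis r r' → (∀ v, ¬ (cw cs).Btw v r r') →
    lab cs H r ≠ lab cs H r' ∧ ¬ (labG cs H).Adj (lab cs H r) (lab cs H r')
  c : ∀ r r' : Wall cs, r ≠ r' → lab cs H r = lab cs H r' → (cw cs).SepCh m r r'

/-- The developing map `c : W → 𝔾`. -/
structure IsDev (H : Subgroup W) (c : W → RA (labG cs H)) : Prop where
  one : c 1 = 1
  mul : ∀ x i, c (x * cs.simple i) = c x * (ra (labG cs H)).simple (lab cs H (wall cs x i))

end Lab

/-! ## Lorentz space -/

/-- Lorentz space over a finite index set. -/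
abbrev LL (Z : Type) : Type := ℝ × (Z → ℝ)

/-- The Lorentz form. -/
def lf {Z : Type} [Fintype Z] (v w : LL Z) : ℝ := -(v.1 * w.1) + ∑ z, v.2 z * w.2 z

/-- The base point. -/
def x0 {Z : Type} : LL Z := (1, 0)

/-- The reflection in the unit space-like vector `n`. -/
def rf {Z : Type} [Fintype Z] (n v : LL Z) : LL Z := v - (2 * lf n v) • n

/-- The upper sheet of the hyperboloid. -/
def Hy (Z : Type) [Fintype Z] : Set (LL Z) := {y | lf y y = -1 ∧ 0 < y.1}

/-- `kap n k = R_{n 0} ∘ ... ∘ R_{n (k-1)}`. -/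
def kap {Z : Type} [Fintype Z] (n : ℕ → LL Z) : ℕ → LL Z → LL Z
  | 0 => id
  | k + 1 => fun v => kap n k (rf (n k) v)

end Pool.Agent.helper53.DC
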