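import Pool.Agent.helper53.DC.SpecK

/-! PART V: the finite dimensional kernels, final assembly. -/

set_option autoImplicit false

namespace Pool.Agent.helper53.DC

open Classical in
/-- The number modulo 2 of edges of class `e` on a walk. -/
noncomputable def cnt {V E : Type} {T : SimpleGraph V} (cl : V → V → E) {u v : V} (p : T.Walk u v) : E → ZMod 2 :=
  fun e => ((p.darts.countP (fun d => decide (cl d.fst d.snd = e)) : ℕ) : ZMod 2)

/-- V1. In a forest the parity count depends only on the end points. PROOF. `cnt p = cnt p.bypass` by induction on `p` (with classical decidability): for `cons h q`, if `u ∈ q.bypass.support` then the path `q.bypass` from `v` reaches `u`, adjacent to `v`; by uniqueness of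
paths its initial part is the edge `v u`, so the class of this edge is counted twice. Then uniqueness of paths. -/
def V1_stmt : Prop := ∀ {V E : Type} (T : SimpleGraph V), T.IsAcyclic → ∀ (cl : V → V → E), (∀ u v, cl u v = cl v u) →
  ∀ (u v : V) (p q : T.Walk u v), cnt cl p = cnt cl q

/-- V2 (uses V1). The kernel `lam ^ d` on a tree through a finite set. PROOF. `Δ u v = cnt` of any walk (V1; additive, `Δ (k u) (k v) (k e) = Δ u v e`). `A = E → ZMod 2`, `(k • α) e = α (k⁻¹ • e) + Δ w (k • w) e`. `φ 0 = (√(1+lam) + √(1-lam))/2`,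
`φ 1 = (√(1+lam) - √(1-lam))/2`: `φ 0 ^2 + φ 1 ^2 = 1`, `2 φ 0 φ 1 = lam`. `f u α = ∏ e, φ (α e - Δ w u e)`. `∑ α, f u α * f u' α = lam ^ #{e | Δ u u' e ≠ 0}` (`Fintype.piFinset` / `Finset.prod_univ_sum`), and `Δ u u'` is the indicator of
the classes on `p` if they are pairwise different. -/
def V2_stmt : Prop := ∀ {V E K : Type} [Finite E] [Group K] [MulAction K V] [MulAction K E] (T : SimpleGraph V) (cl : V → V → E)
  (w : V) (lam : ℝ), T.IsAcyclic → (∀ u v, cl u v = cl v u) → (∀ (k : K) u v, T.Adj u v → T.Adj (k • u) (k • v)) →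
  (∀ (k : K) u v, T.Adj u v → cl (k • u) (k • v) = k • cl u v) → (∀ k : K, T.Reachable w (k • w)) → 0 < lam → lam < 1 →
  ∃ (A : Type) (_ : Fintype A) (_ : MulAction K A) (f : V → A → ℝ),
    (∀ (k : K) u α, T.Reachable w u → f (k • u) (k • α) = f u α) ∧
    ∀ u u', T.Reachable w u → ∀ p : T.Walk u u', p.IsPath → (p.darts.map (fun d => cl d.fst d.snd)).Nodup →
      ∑ α, f u α * f u' α = lam ^ p.length

/-- V3. Extending a finite action to a finite index overgroup. PROOF. `K0` = kernel of `K → Perm A` (as a subgroup of `W`; finite index and normal in `K`); representatives `k_1, ..., k_r` of `K0 \ K` (`K = ⋃ K0 k_i`, `k_1 = 1`). `H0` from the hypothesis avoiding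
the `k_i ∉ K0` and all `f k_i⁻¹`, `f ∈ F \ K`. So `H0 ∩ K = K0`. `H1 = ⋂_{k ∈ K} k H0 k⁻¹ ⊇ K0` has finite index (finitely many conjugates), is normalized by `K`, `H1 ∩ K = K0`, `H' = H1 K`; `h k ↦ k` induces `H' → H'/H1 ≅ K/K0 → Perm A`. If `f = h k ∈ H'`, `f ∈ F \ K`,
`k = k0 k_i`: `f k_i⁻¹ = h k0'...`: `f k_i⁻¹ = (f k⁻¹) k0 ∈ H1 K0 ⊆ H0`, contradiction. -/
def V3_stmt : Prop := ∀ {W : Type} [Group W] (H K : Subgroup W), K ≤ H →
  (∀ K0 : Subgroup W, K0 ≤ K → K0.relIndex K ≠ 0 → ∀ F : Set W, F.Finite →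
    ∃ H0 : Subgroup W, H0.FiniteIndex ∧ K0 ≤ H0 ∧ H0 ≤ H ∧ ∀ f ∈ F, f ∈ H0 → f ∈ K0) →
  ∀ (A : Type) [Fintype A] [MulAction K A] (F : Set W), F.Finite →
    ∃ (H' : Subgroup W) (hK : K ≤ H') (_ : MulAction H' A), H'.FiniteIndex ∧ H' ≤ H ∧
      (∀ (k : K) (α : A), (⟨k.1, hK k.2⟩ : H') • α = k • α) ∧ ∀ f ∈ F, f ∈ H' → f ∈ K

/-- V4. Inducing from `H'` to `W`. PROOF. `Z = (W ⧸ H') × A`, `g • (q, α) = (g • q, ((g • q).out⁻¹ * g * q.out) • α)` (this element is in `H'`), `β u (q, α) = F (q.out⁻¹ • u) α`. -/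
def V4_stmt : Prop := ∀ {W V : Type} [Group W] [MulAction W V] (H' : Subgroup W) [Fintype (W ⧸ H')]
  (A : Type) [Fintype A] [MulAction H' A] (F : V → A → ℝ), (∀ (h : H') u α, F ((h : W) • u) (h • α) = F u α) →
  ∃ (Z : Type) (_ : Fintype Z) (_ : MulAction W Z) (β : V → Z → ℝ), (∀ (g : W) u z, β (g • u) (g • z) = β u z) ∧
    ∀ u u', ∑ z, β u z * β u' z = ∑ q : W ⧸ H', ∑ α, F ((Quotient.out q)⁻¹ • u) α * F ((Quotient.out q)⁻¹ • u') α

/-- V4b. Coarser cosets. PROOF. The function `g ↦ Φ g` is right `H'`-invariant; `W ⧸ H' → W ⧸ H`; on the fibre over `g H` only one coset contributes. -/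
def V4b_stmt : Prop := ∀ {W : Type} [Group W] (H H' : Subgroup W) [Fintype (W ⧸ H')] [Fintype (W ⧸ H)] (Φ Ψ : W → ℝ), H' ≤ H →
  (∀ g, ∀ h ∈ H', Φ (g * h) = Φ g) →
  (∀ g, (∃ h ∈ H, Φ (g * h) = Ψ g ∧ ∀ h1 ∈ H, h⁻¹ * h1 ∉ H' → Φ (g * h1) = 0)) →
  ∑ q : W ⧸ H', Φ (Quotient.out q) = ∑ q : W ⧸ H, Ψ (Quotient.out q)

/-- V5. Extending an equivariant function from a component to all of `V`. PROOF. `F u α = f (h⁻¹ • u) (h⁻¹ • α)` if `h⁻¹ • u ∈ T0` for some `h ∈ H'` (well defined since two such `h` differ by an element of `K`), `0` otherwise. -/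
def V5_stmt : Prop := ∀ {W V : Type} [Group W] [MulAction W V] (H' K : Subgroup W) (T : Set V) (A : Type) [MulAction H' A]
  (f : V → A → ℝ), K ≤ H' → (∀ h ∈ H', ∀ u ∈ T, (h • u ∈ T ↔ h ∈ K)) →
  (∀ h : H', (h : W) ∈ K → ∀ u ∈ T, ∀ α, f ((h : W) • u) (h • α) = f u α) →
  ∃ F : V → A → ℝ, (∀ (h : H') u α, F ((h : W) • u) (h • α) = F u α) ∧ (∀ u ∈ T, F u = f u) ∧
    ∀ u, (∀ h ∈ H', h • u ∉ T) → F u = 0

section
variable {B W : Type} [Group W] {M : CoxeterMatrix B} (cs : CoxeterSystem M W)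

/-- The class of an edge of `TG` modulo `N`. -/
def ec (H N : Subgroup W) (w w' u u' : Wall cs) : Set (W ⧸ N) :=
  {q | ∃ h ∈ H, q = (h : W ⧸ N) ∧ ((h • w = u ∧ h • w' = u') ∨ (h • w' = u ∧ h • w = u'))}

open Classical in
/-- The tree kernel of the `H`-orbit of `w, w'`. -/
noncomputable def kT (H : Subgroup W) (w w' : Wall cs) (lam : ℝ) (u u' : Wall cs) : ℝ :=
  if (∃ h ∈ H, h • w = u ∨ h • w' = u) ∧ (TG cs H w w').Reachable u u' then lam ^ ((TG cs H w w').dist u u') else 0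

/-- The data with norms not yet adjusted. -/
def KD (C : ℝ) (R : ℕ) : Prop :=
  ∃ (Z : Type) (_ : Fintype Z) (_ : MulAction W Z) (b : Wall cs → Z → ℝ),
    (∀ (g : W) r z, b (g • r) (g • z) = b r z) ∧ (∀ r, ∑ z, b r z * b r z ≤ C) ∧
    (∀ r r', (cw cs).Cross r r' → ∑ z, b r z * b r' z = 1) ∧
    (∀ r r', (cw cs).Dis r r' → Vis cs R r r' → ∑ z, b r z * b r' z ≤ 1 / 2)

end

/-- A24 (uses A3, A7, A9, A11, A6). Crossing walls are visible. PROOF. `p ∈ Car r` with `D_{r'}(p) ≤ 2N`; `z ∈ Car r'`, `d(p,z) ≤ N`, same side of `r'` as `p`; `y = r' z` is on the other side of `r'`. `r` separates `y` from `p` or from `r p`, and `r'` does not separate `p` and `r p`. -/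
def A24_stmt : Prop := ∀ {B W : Type} [Group W] [Finite B] {M : CoxeterMatrix B} (cs : CoxeterSystem M W),
  ∃ R0, ∀ r r', (cw cs).Cross r r' → Vis cs R0 r r'

/-- V6a (uses A14, A15, A19). Finitely many walls visible from `w`, up to the stabilizer. PROOF. A geodesic from `x` to `y` (`d(x,y) ≤ R`) crosses `w` and `u'`: there is `z ∈ Car w` with `D_{u'}(z) ≤ 2R + 1`. `z = h z_0` with `h ∈ H`, `h • w = w`, `z_0` in a finite set (one for
each `i` with `z⁻¹ w z = s i` and each coset `H z`), `h⁻¹ • u'` is one of the finitely many walls with `D(z_0) ≤ 2R + 1`. -/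
def V6a_stmt : Prop := ∀ {B W : Type} [Group W] [Finite B] {M : CoxeterMatrix B} (cs : CoxeterSystem M W) (H : Subgroup W),
  H.FiniteIndex → ∀ (R : ℕ) (w : Wall cs), ∃ F : Set (Wall cs), F.Finite ∧
    ∀ u', Vis cs R w u' → ∃ h ∈ H, h • w = w ∧ ∃ u'' ∈ F, u' = h • u''

/-- V6b (uses V6a, R9, K6, A4). A deep normal subgroup for the edges. PROOF. Translate by `H` so that `r ∈ {w, w'}`, then by the stabilizer so that `r'` is in the finite set of V6a; only finitely many pairs, one path each (forest, K6), finitely many products `b.1 * a.1 ≠ 1`; `N` normal (R9), intersected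
with `H`. (Vis is invariant under translation: A4.) -/
def V6b_stmt : Prop := ∀ {B W : Type} [Group W] [Finite B] {M : CoxeterMatrix B} (cs : CoxeterSystem M W) (H : Subgroup W)
  (w w' : Wall cs), H.Normal → H.FiniteIndex → (TG cs H w w').IsAcyclic → ∀ R : ℕ,
  ∃ N : Subgroup W, N.Normal ∧ N.FiniteIndex ∧ N ≤ H ∧
    ∀ (r r' : Wall cs), (∃ h ∈ H, h • w = r ∨ h • w' = r) → Vis cs R r r' → ∀ p : (TG cs H w w').Walk r r', p.IsPath →
      ∀ a ∈ p.support, ∀ b ∈ p.support, a ≠ b → b.1 * a.1 ∉ N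

/-- V6c. Edge classes. PROOF. (first, second) easy. (third) take `h ∈ H` with the edge `u u'` = `h (w w')`; `h N ∈ ec v v'`, so `h' = h n`, `h' (w w')` = the edge `v v'`, `h' h⁻¹ ∈ N` (normal), so `h' h⁻¹` maps the edge `u u'` to `v v'`; if it maps `u` to `v'` then
`lab u = lab v'`, but `lab u = lab v ≠ lab v'`. -/
def V6c_stmt : Prop := ∀ {B W : Type} [Group W] {M : CoxeterMatrix B} (cs : CoxeterSystem M W) (H N : Subgroup W)
  (w w' : Wall cs), N.Normal → N ≤ H → lab cs H w ≠ lab cs H w' →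
  (∀ u u', ec cs H N w w' u u' = ec cs H N w w' u' u) ∧
  (∀ h ∈ H, ∀ u u', ec cs H N w w' (h • u) (h • u') = (fun q : W ⧸ N => h • q) '' ec cs H N w w' u u') ∧
  (∀ u u' v v', (TG cs H w w').Adj u u' → (TG cs H w w').Adj v v' → ec cs H N w w' u u' = ec cs H N w w' v v' →
    lab cs H u = lab cs H v → ∃ n ∈ N, n • u = v ∧ n • u' = v')

/-- V6d (uses V6b, V6c, K5, K6, V2). The finite `KK`-set with functions. PROOF. `E = Set (W ⧸ N)`, `cl = ec`, `K = KK`, V2. For a visible pair the classes along the path are pairwise different: two edges `(a,a')`, `(b,b')` of the path with the same class, oriented such that `lab a = lab b`: `n • a = b`,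
`n • a' = b'` (V6c), and `b.1 * a.1 = n (a n⁻¹ a⁻¹) ∈ N`, so `a = b`, `a' = b'` (V6b); the edges of a path are pairwise different. -/
def V6d_stmt : Prop := ∀ {B W : Type} [Group W] [Finite B] {M : CoxeterMatrix B} (cs : CoxeterSystem M W) (H : Subgroup W) (m g0 : ℕ)
  (w w' : Wall cs), Deep cs H m → (cw cs).Cross w w' → G0 cs g0 → 2 * g0 < m → ∀ (lam : ℝ), 0 < lam → lam < 1 → ∀ R : ℕ,
  ∃ (A : Type) (_ : Fintype A) (_ : MulAction (KK cs H w w') A) (f : Wall cs → A → ℝ),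
    (∀ (k : KK cs H w w') u α, u ∈ T0 cs H w w' → f ((k : W) • u) (k • α) = f u α) ∧
    ∀ u u', u ∈ T0 cs H w w' → u' ∈ T0 cs H w w' → Vis cs R u u' →
      ∑ α, f u α * f u' α = lam ^ ((TG cs H w w').dist u u')

/-- V6 (uses V6a, V6d, V3, V4, V4b, V5, A4). Realization of one tree kernel. PROOF. `F0` = finite set of elements `h ∈ H` such that every wall `u'` which is visible from `w` or `w'` and lies in `H w ∪ H w'` is `s • (h • w)` or `s • (h • w')` with `h ∈ F0`, `s ∈ H` fixing `w` (resp. `w'`) (V6a).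
`A, f` from V6d, `H'` from V3 for `F0`, `F` from V5 (`T = T0`), `β` from V4. `Φ g = ∑ α, F (g⁻¹ • r) α * F (g⁻¹ • r') α`, `Ψ g = kT (g⁻¹ • r) (g⁻¹ • r')`, V4b: let `u = g⁻¹ • r`, `u' = g⁻¹ • r'`. If `u ∉ H w ∪ H w'` both vanish. Otherwise `u = h0 • u0`, `u0 ∈ {w, w'}`, `h0 ∈ H`; `F (h⁻¹ • u) ≠ 0`
only if `h ∈ h0 H'`. For `h = h0`: `∑ F u0 * F (h0⁻¹ • u')`. If `u'` is reachable from `u` this is `lam ^ dist`. If not, `F (h0⁻¹ • u') = 0`: otherwise `h0⁻¹ • u' = h' • u2`, `h' ∈ H'`, `u2 ∈ T0`, `h0⁻¹ • u' = s • (h1 • w^(b))`, `h1 ∈ F0`, `u2 = k • w^(b)`, `k ∈ KK`, so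
`h1 ∈ s⁻¹ h' k (stabilizer of w^(b)) ⊆ H'`, so `h1 ∈ KK` and `h0⁻¹ • u' ∈ T0`. -/
def V6_stmt : Prop := ∀ {B W : Type} [Group W] [Finite B] {M : CoxeterMatrix B} (cs : CoxeterSystem M W) (H : Subgroup W) (m g0 : ℕ)
  (w w' : Wall cs), Deep cs H m → (cw cs).Cross w w' → G0 cs g0 → 2 * g0 < m → SEP cs H w w' →
  ∀ (lam : ℝ), 0 < lam → lam < 1 → ∀ (R : ℕ) [Fintype (W ⧸ H)],
  ∃ (Z : Type) (_ : Fintype Z) (_ : MulAction W Z) (β : Wall cs → Z → ℝ), (∀ (g : W) u z, β (g • u) (g • z) = β u z) ∧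
    ∀ r r', Vis cs R r r' → ∑ z, β r z * β r' z =
      ∑ q : W ⧸ H, kT cs H w w' lam ((Quotient.out q)⁻¹ • r) ((Quotient.out q)⁻¹ • r')

/-- V7 (uses A7, A21, A4c). Finitely many `H`-orbits of ordered crossing pairs. -/
def V7_stmt : Prop := ∀ {B W : Type} [Group W] [Finite B] {M : CoxeterMatrix B} (cs : CoxeterSystem M W) (H : Subgroup W),
  H.FiniteIndex → ∃ (I : Type) (_ : Fintype I) (e : I → Wall cs × Wall cs), (∀ i, (cw cs).Cross (e i).1 (e i).2) ∧
    ∀ u u', (cw cs).Cross u u' → ∃! i, ∃ h ∈ H, h • (e i).1 = u ∧ h • (e i).2 = u'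

/-- V8 (uses V6, V7, K6, A24, A4c, A6, W1). Sum over all orbits. PROOF. `I, e` from V7; `lam = 1 / (card I + 2)`, `b r` = all `β_i r` (V6 for `e i`, radius `max R R0 + 1`) divided by `√(2 lam [W:H])`, on the disjoint union of the `Z_i`. For visible `(r, r')`: `∑ b r b r' = (1 / (2 lam [W:H])) ∑_q ∑_i kT_i(u,u')`,
`u = q⁻¹ r, u' = q⁻¹ r'`. Crossing: `kT_i = lam` if `u, u'` are adjacent in the graph of `e i`, else `0` (distance `≥ 2` would give disjoint walls, K6; `u ≠ u'`); adjacent for exactly two `i` (the orbit of `(u,u')` and that of `(u',u)`, different since `lab u ≠ lab u'`). Disjoint: `kT_i ≤ lam ^ 2`, so the sum is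
`≤ card I * lam / 2 ≤ 1/2`. Diagonal: `kT_i ≤ 1`, `C = card I / (2 lam)`. -/
def V8_stmt : Prop := ∀ {B W : Type} [Group W] [Finite B] {M : CoxeterMatrix B} (cs : CoxeterSystem M W) (H : Subgroup W) (m g0 : ℕ),
  Deep cs H m → G0 cs g0 → 2 * g0 < m → (∀ w w' : Wall cs, (cw cs).Cross w w' → SEP cs H w w') → ∃ C : ℝ, ∀ R, KD cs C R

/-- V9 (uses R9, A7, A21, A19, A14, A15, A4, A6, W1). Adjusting the norms. PROOF. `C ≥ 0` w.l.o.g.; `a = 1 / √(C+1)`, `μ = a^2/2`. `N` normal of finite index (R9) avoiding `r' r` for crossing `r ≠ r'` (A7, A21: finitely many up to conjugation) and for `R`-visible `r ≠ r'` (both close to a chamber, which may be translated to `1`). `Z' = Z ⊕ (orbits of N on walls)`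
with the action of `W`; `β r (inl z) = a * b r z`, `β r (inr o) = √(1 + a^2 - a^2 ∑ b r^2)` if `o` is the orbit of `r`, else `0`. -/
def V9_stmt : Prop := ∀ {B W : Type} [Group W] [Finite B] {M : CoxeterMatrix B} (cs : CoxeterSystem M W) (C : ℝ),
  (∀ R, KD cs C R) → ∃ a μ : ℝ, 0 < a ∧ 0 < μ ∧ ∀ R, FSd cs a μ R

/-- Z (uses H4, H5b, H7, K12, V8, V9, D3). Final statement for a Coxeter system of finite rank. -/
def Z_stmt : Prop := ∀ {B W : Type} [Group W] [Finite B] {M : CoxeterMatrix B} (cs : CoxeterSystem M W) (δ : ℕ), Hyp cs δ →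
  ∃ (n : ℕ) (ρ' : W →* Matrix (Fin (n + 1)) (Fin (n + 1)) ℝ), Function.Injective ρ' ∧
    (∀ g : W, (ρ' g).transpose
          * Matrix.diagonal (fun i : Fin (n + 1) => if i = 0 then (-1 : ℝ) else 1) * ρ' g
        = Matrix.diagonal (fun i : Fin (n + 1) => if i = 0 then (-1 : ℝ) else 1)) ∧
    (∀ g : W, 0 < ρ' g 0 0) ∧ DiscreteTopology (Set.range ρ')

end Pool.Agent.helper53.DC
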